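import Pool.Agent.Helper35_WH.Stmt2

/-!
# FINAL: from tight words to all words
-/

namespace Pool.Agent.Helper35_WH

open FreeGroup Pool.Agent.Helper32_HCK

namespace Fin19

theorem small_refl {n K : ℕ} (hK : 1 ≤ K) : Small n K (MulEquiv.refl (FG n)) := fun i =>
  ⟨by simpa using hK, by simpa using hK⟩

theorem small_symm {n K : ℕ} {τ : FG n ≃* FG n} (h : Small n K τ) : Small n K τ.symm := fun i =>
  ⟨(h i).2, (h i).1⟩

theorem conn_mono {n K L L' N N' : ℕ} {u v : FG n} (hK : 1 ≤ K) (h : Conn n K L N u v)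
    (hL : L ≤ L') (hN : N ≤ N') : Conn n K L' N' u v := by
  obtain ⟨w, h0, h1, h2, h3⟩ := h
  refine ⟨fun i => w (min i N), by simp [h0], by simp [hN, h1], ?_, ?_⟩
  · intro i _
    exact (h2 _ (min_le_right _ _)).trans hL
  · intro i _
    by_cases hi : i < N
    · obtain ⟨τ, hτ, hw⟩ := h3 i hi
      refine ⟨τ, hτ, ?_⟩
      have e1 : min (i + 1) N = i + 1 := min_eq_left hi
      have e2 : min i N = i := min_eq_left hi.le
      simp only [e1, e2]
      exact hw
    · refine ⟨MulEquiv.refl _, small_refl hK, ?_⟩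
      have e1 : min (i + 1) N = N := min_eq_right (by omega)
      have e2 : min i N = N := min_eq_right (by omega)
      simp only [e1, e2]
      rfl

theorem conn_trans {n K L N M : ℕ} {u v w : FG n} (h : Conn n K L N u v)
    (h' : Conn n K L M v w) : Conn n K L (N + M) u w := by
  obtain ⟨x, h0, h1, h2, h3⟩ := h
  obtain ⟨y, h0', h1', h2', h3'⟩ := h'
  refine ⟨fun i => if i ≤ N then x i else y (i - N), ?_, ?_, ?_, ?_⟩
  · simp [h0]
  · by_cases hM : M = 0
    · subst hM
      simp only [Nat.add_zero, le_refl, if_true]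
      rw [h1, ← h0', h1']
    · have : ¬ N + M ≤ N := by omega
      simp only [this, if_false]
      rw [Nat.add_sub_cancel_left]
      exact h1'
  · intro i hi
    simp only
    split_ifs with h4
    · exact h2 i h4
    · exact h2' _ (by omega)
  · intro i hi
    simp only
    by_cases h4 : i + 1 ≤ N
    · have h5 : i ≤ N := by omega
      rw [if_pos h4, if_pos h5]
      exact h3 i (by omega)
    · rw [if_neg h4]
      by_cases h5 : i ≤ N
      · have h6 : i = N := by omega
        subst h6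
        rw [if_pos h5]
        have h7 := h3' 0 (by omega)
        rw [h0'] at h7
        rw [h1]
        have e : i + 1 - i = 0 + 1 := by omega
        rw [e]
        exact h7
      · rw [if_neg h5]
        have h7 := h3' (i - N) (by omega)
        have e : i + 1 - N = i - N + 1 := by omega
        rw [e]
        exact h7

theorem conn_symm {n K L N : ℕ} {u v : FG n} (h : Conn n K L N u v) : Conn n K L N v u := by
  obtain ⟨w, h0, h1, h2, h3⟩ := h
  refine ⟨fun i => w (N - i), by simpa using h1, by simpa using h0, ?_, ?_⟩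
  · intro i _
    exact h2 _ (by omega)
  · intro i hi
    obtain ⟨τ, hτ, hw⟩ := h3 (N - (i + 1)) (by omega)
    refine ⟨τ.symm, small_symm hτ, ?_⟩
    have e : N - (i + 1) + 1 = N - i := by omega
    rw [e] at hw
    simp only
    rw [hw, MulEquiv.symm_apply_apply]

theorem conn_aut {n K L : ℕ} : ∀ (N : ℕ) (u v : FG n), Conn n K L N u v →
    ∃ τ : FG n ≃* FG n, τ u = v := by
  intro N
  induction N with
  | zero =>
    rintro u v ⟨w, h0, h1, -, -⟩
    exact ⟨MulEquiv.refl _, by rw [← h0, ← h1]; rfl⟩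
  | succ N ih =>
    rintro u v ⟨w, h0, h1, h2, h3⟩
    obtain ⟨τ, hτ⟩ := ih u (w N) ⟨w, h0, rfl, fun i hi => h2 i (by omega),
      fun i hi => h3 i (by omega)⟩
    obtain ⟨τ', -, hτ'⟩ := h3 N (by omega)
    exact ⟨τ.trans τ', by rw [MulEquiv.trans_apply, hτ, ← h1, hτ']⟩

theorem norm_map_le {α β : Type} [DecidableEq α] [DecidableEq β] (f : α → β) (x : FreeGroup α) :
    (FreeGroup.map f x).norm ≤ x.norm := by
  have h1 : FreeGroup.map f x = FreeGroup.mk (x.toWord.map fun y => (f y.1, y.2)) := by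
    conv_lhs => rw [← FreeGroup.mk_toWord (x := x)]
    rw [FreeGroup.map.mk]
  rw [h1]
  refine FreeGroup.norm_mk_le.trans ?_
  rw [List.length_map]
  rfl

/-- the splitting of the letters -/
def spl {n k : ℕ} (hk : k ≤ n) : Fin k ⊕ Fin (n - k) ≃ Fin n :=
  finSumFinEquiv.trans (finCongr (by omega))

theorem spl_inl {n k : ℕ} (hk : k ≤ n) (i : Fin k) : spl hk (Sum.inl i) = Fin.castLE hk i := by
  ext
  simp [spl]

theorem map_spl {n k : ℕ} (hk : k ≤ n) (g : FG k) :
    FreeGroup.freeGroupCongr (spl hk) (FreeGroup.map Sum.inl g) =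
      FreeGroup.map (Fin.castLE hk) g := by
  have h1 : (FreeGroup.freeGroupCongr (spl hk)).toMonoidHom.comp (FreeGroup.map Sum.inl) =
      FreeGroup.map (Fin.castLE hk) := by
    ext i
    simp [spl_inl]
  exact DFunLike.congr_fun h1 g

/-- extension of a homomorphism by the identity -/
noncomputable def extHom {α β : Type} (h : FreeGroup α →* FreeGroup α) :
    FreeGroup (α ⊕ β) →* FreeGroup (α ⊕ β) :=
  FreeGroup.lift (Sum.elim (fun i => FreeGroup.map Sum.inl (h (of i))) (fun j => of (Sum.inr j)))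

theorem extHom_inl {α β : Type} (h : FreeGroup α →* FreeGroup α) (g : FreeGroup α) :
    extHom (β := β) h (FreeGroup.map Sum.inl g) = FreeGroup.map Sum.inl (h g) := by
  have h1 : (extHom (β := β) h).comp (FreeGroup.map Sum.inl) =
      (FreeGroup.map Sum.inl).comp h := by
    ext i
    simp [extHom]
  exact DFunLike.congr_fun h1 g

theorem extHom_inr {α β : Type} (h : FreeGroup α →* FreeGroup α) (j : β) :
    extHom (β := β) h (of (Sum.inr j)) = of (Sum.inr j) := by
  simp [extHom]

theorem extHom_comp {α β : Type} (h h' : FreeGroup α →* FreeGroup α)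
    (hh : h.comp h' = MonoidHom.id _) :
    (extHom (β := β) h).comp (extHom h') = MonoidHom.id _ := by
  ext x
  rcases x with i | j
  · have e : (of (Sum.inl i) : FreeGroup (α ⊕ β)) = FreeGroup.map Sum.inl (of i) := by simp
    rw [MonoidHom.comp_apply, e, extHom_inl, extHom_inl]
    have h1 : h (h' (of i)) = of i := DFunLike.congr_fun hh (of i)
    rw [h1]
    rfl
  · rw [MonoidHom.comp_apply, extHom_inr, extHom_inr]
    rfl

/-- extension of an automorphism by the identity -/
noncomputable def extEquiv {α β : Type} (h : FreeGroup α ≃* FreeGroup α) :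
    FreeGroup (α ⊕ β) ≃* FreeGroup (α ⊕ β) :=
  MonoidHom.toMulEquiv (extHom h.toMonoidHom) (extHom h.symm.toMonoidHom)
    (extHom_comp _ _ (by ext; simp)) (extHom_comp _ _ (by ext; simp))

theorem extEquiv_inl {α β : Type} (h : FreeGroup α ≃* FreeGroup α) (g : FreeGroup α) :
    extEquiv (β := β) h (FreeGroup.map Sum.inl g) = FreeGroup.map Sum.inl (h g) :=
  extHom_inl h.toMonoidHom g

theorem extend {n k : ℕ} (hk : k ≤ n) (h : FG k ≃* FG k) (B : ℕ) (hB : ∀ i, (h (of i)).norm ≤ B) :
    ∃ H : FG n ≃* FG n, (∀ g, H (FreeGroup.map (Fin.castLE hk) g) =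
      FreeGroup.map (Fin.castLE hk) (h g)) ∧ ∀ i, (H (of i)).norm ≤ B + 1 := by
  refine ⟨(FreeGroup.freeGroupCongr (spl hk)).symm.trans
    ((extEquiv h).trans (FreeGroup.freeGroupCongr (spl hk))), ?_, ?_⟩
  · intro g
    rw [← map_spl, ← map_spl, MulEquiv.trans_apply, MulEquiv.trans_apply,
      MulEquiv.symm_apply_apply]
    congr 1
    exact extHom_inl _ _
  · intro i
    obtain ⟨x, rfl⟩ := (spl hk).surjective i
    have e1 : (FreeGroup.freeGroupCongr (spl hk)).symm (of (spl hk x)) = of x := by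
      rw [MulEquiv.symm_apply_eq]
      simp
    rw [MulEquiv.trans_apply, MulEquiv.trans_apply, e1]
    have e2 : ∀ y, FreeGroup.freeGroupCongr (spl hk) y = FreeGroup.map (spl hk) y := fun _ => rfl
    rw [e2]
    refine (norm_map_le _ _).trans ?_
    rcases x with j | j
    · have e3 : (extEquiv h : FreeGroup (Fin k ⊕ Fin (n - k)) ≃* _) (of (Sum.inl j)) =
          FreeGroup.map Sum.inl (h (of j)) := by
        have e : (of (Sum.inl j) : FreeGroup (Fin k ⊕ Fin (n - k))) =
          FreeGroup.map Sum.inl (of j) := by simp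
        rw [e]
        exact extEquiv_inl h _
      rw [e3]
      exact (norm_map_le _ _).trans ((hB j).trans (Nat.le_succ _))
    · have e3 : (extEquiv h : FreeGroup (Fin k ⊕ Fin (n - k)) ≃* _) (of (Sum.inr j)) =
          of (Sum.inr j) := extHom_inr h.toMonoidHom j
      rw [e3, FreeGroup.norm_of]
      omega

/-- restriction of an automorphism to free factors -/
theorem restrict (hFF : FreeFactorStatement) {n k k' : ℕ} (hk : k ≤ n) (hk' : k' ≤ n)
    (v : FG k) (v' : FG k') (hv : Filling v) (hv' : Filling v') (ψ : FG n ≃* FG n)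
    (hψ : ψ (FreeGroup.map (Fin.castLE hk) v) = FreeGroup.map (Fin.castLE hk') v') :
    ∃ θ : FG k ≃* FG k', θ v = v' := by
  let Ψ : FreeGroup (Fin k ⊕ Fin (n - k)) ≃* FreeGroup (Fin k' ⊕ Fin (n - k')) :=
    (FreeGroup.freeGroupCongr (spl hk)).trans (ψ.trans (FreeGroup.freeGroupCongr (spl hk')).symm)
  have hΨ : Ψ (FreeGroup.map Sum.inl v) = FreeGroup.map Sum.inl v' := by
    simp only [Ψ, MulEquiv.trans_apply]
    rw [map_spl, hψ, MulEquiv.symm_apply_eq, map_spl]
  have hΨ' : Ψ.symm (FreeGroup.map Sum.inl v') = FreeGroup.map Sum.inl v := by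
    rw [MulEquiv.symm_apply_eq, hΨ]
  have inj1 : Function.Injective (FreeGroup.map (Sum.inl : Fin k → Fin k ⊕ Fin (n - k))) :=
    FreeGroup.map_injective Sum.inl_injective
  have inj2 : Function.Injective (FreeGroup.map (Sum.inl : Fin k' → Fin k' ⊕ Fin (n - k'))) :=
    FreeGroup.map_injective Sum.inl_injective
  have h1 := hFF (Fin k) (Fin (n - k)) (Fin k') (Fin (n - k')) Ψ v hv ⟨v', hΨ.symm⟩
  have h2 := hFF (Fin k') (Fin (n - k')) (Fin k) (Fin (n - k)) Ψ.symm v' hv' ⟨v, hΨ'.symm⟩
  choose f hf using h1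
  choose f' hf' using h2
  have hff' : ∀ g, f' (f g) = g := fun g => inj1 (by rw [hf', hf, MulEquiv.symm_apply_apply])
  have hf'f : ∀ g, f (f' g) = g := fun g => inj2 (by rw [hf, hf', MulEquiv.apply_symm_apply])
  refine ⟨⟨⟨f, f', hff', hf'f⟩, ?_⟩, ?_⟩
  · intro a b
    apply inj2
    simp only
    rw [hf, _root_.map_mul, _root_.map_mul, _root_.map_mul, hf, hf]
  · exact inj2 (by rw [← hΨ]; exact hf v)

end Fin19

open Fin19 in
theorem finalFrom : FinalFromStatement := by
  intro hG hFF hT hC hP hNP n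
  obtain ⟨C, d, hC⟩ := hC
  let Q : Polynomial ℕ := (n : Polynomial ℕ) * ((C : Polynomial ℕ) * (Polynomial.X + 1) ^ d + 1)
  refine hNP n 9 ((Polynomial.X + 1) * (Q + 1) + 2 * (Polynomial.X + (n : Polynomial ℕ)) + 1) ?_
  rintro u v ⟨φ, hφ⟩
  obtain ⟨k, hk, L, hL1, hL2, hL3, hL4, hL5⟩ := hG n v
  obtain ⟨k', hk', L', hL1', hL2', hL3', hL4', hL5'⟩ := hG n u
  obtain ⟨τ, hτ⟩ := conn_aut _ _ _ hL5
  obtain ⟨τ', hτ'⟩ := conn_aut _ _ _ hL5'
  have hψ : (τ.symm.trans (φ.trans τ')) (FreeGroup.map (Fin.castLE hk) (FreeGroup.mk L)) =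
      FreeGroup.map (Fin.castLE hk') (FreeGroup.mk L') := by
    rw [MulEquiv.trans_apply, MulEquiv.trans_apply, ← hτ, MulEquiv.symm_apply_apply, hφ, hτ']
  obtain ⟨θ, hθ⟩ := restrict hFF hk hk' _ _ (hT k L hL1 hL2 hL3) (hT k' L' hL1' hL2' hL3') _ hψ
  have hkk : k = k' := by
    have := Fintype.card_congr (Equiv.ofFreeGroupEquiv θ)
    simpa using this
  subst hkk
  obtain ⟨h, hh1, hh2⟩ := hC k L L' hL1 hL1' hL2 hL2' hL3 hL3' θ hθ
  obtain ⟨H, hH1, hH2⟩ := extend hk h _ hh2
  set s := u.norm + v.norm with hs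
  have hsum : ∑ i, (H (of i)).norm ≤ Q.eval s := by
    have h1 : ∀ i ∈ (Finset.univ : Finset (Fin n)), (H (of i)).norm ≤ C * (s + 1) ^ d + 1 := by
      intro i _
      refine (hH2 i).trans ?_
      have h2 : L.length + L'.length + 1 ≤ s + 1 := by omega
      have h3 := Nat.mul_le_mul_left C (Nat.pow_le_pow_left h2 d)
      omega
    have h2 := Finset.sum_le_card_nsmul _ _ _ h1
    rw [Finset.card_univ, Fintype.card_fin, smul_eq_mul] at h2
    simp only [Q, Polynomial.eval_mul, Polynomial.eval_add, Polynomial.eval_pow,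
      Polynomial.eval_X, Polynomial.eval_natCast, Polynomial.eval_one, Nat.cast_id]
    exact h2
  have hpath := hP n H (FreeGroup.map (Fin.castLE hk) (FreeGroup.mk L))
  rw [hH1, hh1] at hpath
  have hv' : (FreeGroup.map (Fin.castLE hk) (FreeGroup.mk L)).norm ≤ v.norm :=
    (norm_map_le _ _).trans (FreeGroup.norm_mk_le.trans hL4)
  have heval : ((Polynomial.X + 1) * (Q + 1) + 2 * (Polynomial.X + (n : Polynomial ℕ)) + 1).eval s =
      (s + 1) * (Q.eval s + 1) + 2 * (s + n) + 1 := by
    simp only [Polynomial.eval_mul, Polynomial.eval_add, Polynomial.eval_X,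
      Polynomial.eval_natCast, Polynomial.eval_one, Polynomial.eval_ofNat, Nat.cast_id]
  rw [heval]
  have hmul : (FreeGroup.map (Fin.castLE hk) (FreeGroup.mk L)).norm * ∑ i, (H (of i)).norm ≤
      s * Q.eval s := Nat.mul_le_mul (hv'.trans (by omega)) hsum
  have hexp : (s + 1) * (Q.eval s + 1) = s * Q.eval s + s + Q.eval s + 1 := by ring
  have c1 := conn_mono (L' := (s + 1) * (Q.eval s + 1) + 2 * (s + n) + 1) (by norm_num) hL5
    (by omega) le_rfl
  have c2 := conn_mono (L' := (s + 1) * (Q.eval s + 1) + 2 * (s + n) + 1) (by norm_num) hpath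
    (by omega) le_rfl
  have c3 := conn_symm (conn_mono (L' := (s + 1) * (Q.eval s + 1) + 2 * (s + n) + 1)
    (by norm_num) hL5' (by omega) le_rfl)
  exact conn_mono (by norm_num) (conn_trans (conn_trans c1 c2) c3) le_rfl (by omega)

end Pool.Agent.Helper35_WH
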