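import Pool.Agent.Helper35_WH.Stmt1

/-!
# NONBR: a non-bridge track not used by `v` shows that `v` is not filling
-/

namespace Pool.Agent.Helper35_WH

open FreeGroup

theorem eqvGen_congr {V α : Type} {e0 : V → V → Prop} {f : V → α}
    (hf : ∀ u w, e0 u w → f u = f w) {u w : V} (h : Relation.EqvGen e0 u w) : f u = f w := by
  induction h with
  | rel _ _ h => exact hf _ _ h
  | refl _ => rfl
  | symm _ _ _ ih => exact ih.symm
  | trans _ _ _ _ _ ih1 ih2 => exact ih1.trans ih2

theorem nonBridge : NonBridgeStatement := by
  classical
  intro V T _ _ _ _ H _ e0 inc ρ o hinc hinc2 huniv t1 v hnb hv hfill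
  choose a b hab using hinc
  -- solutions in terms of the representatives
  have hsol : ∀ (M : Type) [Group M] (m : T → M) (x : (H →* M) × (V → M)),
      (∀ u w, e0 u w → x.2 u = x.2 w) →
      (∀ t, m t = (x.2 (a t))⁻¹ * x.1 (ρ t) * x.2 (b t)) →
      ∀ t u w, inc t u w → m t = (x.2 u)⁻¹ * x.1 (ρ t) * x.2 w := by
    intro M _ m x hx h t u w hi
    obtain ⟨h1, h2⟩ := hinc2 t _ _ _ _ (hab t) hi
    rw [← eqvGen_congr hx h1, ← eqvGen_congr hx h2]
    exact h t
  -- a maximal set of tracks which behaves like a forest
  set G : Finset T → Prop := fun S => t1 ∉ S ∧ ∀ t ∈ S, ∃ f : V → Bool,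
    (∀ u w, e0 u w → f u = f w) ∧ ∀ t' ∈ S, (f (a t') ≠ f (b t') ↔ t' = t) with hG
  obtain ⟨S, hS, hmax⟩ : ∃ S, G S ∧ ∀ S', G S' → S'.card ≤ S.card := by
    have hfin : (Finset.univ.filter G).Nonempty :=
      ⟨∅, by simp [hG]⟩
    obtain ⟨S, hS, hmax⟩ := Finset.exists_max_image (Finset.univ.filter G) Finset.card hfin
    exact ⟨S, (Finset.mem_filter.1 hS).2, fun S' hS' =>
      hmax S' (Finset.mem_filter.2 ⟨Finset.mem_univ _, hS'⟩)⟩
  obtain ⟨hS1, hS2⟩ := hS
  have hconst : ∀ f : V → Bool, (∀ u w, e0 u w → f u = f w) → (∀ t ∈ S, f (a t) = f (b t)) →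
      ∀ u w, f u = f w := by
    intro f hf hfS
    by_contra hcon
    have h1 : ∃ t, t ≠ t1 ∧ f (a t) ≠ f (b t) := by
      by_contra h2
      push Not at h2
      apply hcon
      apply hnb f hf
      intro t ht u w hi
      obtain ⟨h3, h4⟩ := hinc2 t _ _ _ _ (hab t) hi
      rw [← eqvGen_congr hf h3, ← eqvGen_congr hf h4]
      exact h2 t ht
    obtain ⟨t, ht, hft⟩ := h1
    have htS : t ∉ S := fun h => hft (hfS t h)
    have hG' : G (insert t S) := by
      refine ⟨?_, ?_⟩
      · rw [Finset.mem_insert]
        rintro (h | h)
        · exact ht h.symm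
        · exact hS1 h
      · intro t' ht'
        rw [Finset.mem_insert] at ht'
        rcases ht' with rfl | ht'
        · refine ⟨f, hf, fun t'' ht'' => ?_⟩
          rw [Finset.mem_insert] at ht''
          rcases ht'' with rfl | ht''
          · exact ⟨fun _ => rfl, fun _ => hft⟩
          · constructor
            · intro h
              exact absurd (hfS t'' ht'') h
            · intro h
              exact absurd (h ▸ ht'') htS
        · obtain ⟨f', hf', hf'2⟩ := hS2 t' ht'
          have htt' : t ≠ t' := fun h => htS (h ▸ ht')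
          by_cases hc : f' (a t) = f' (b t)
          · refine ⟨f', hf', fun t'' ht'' => ?_⟩
            rw [Finset.mem_insert] at ht''
            rcases ht'' with rfl | ht''
            · constructor
              · intro h
                exact absurd hc h
              · intro h
                exact absurd h htt'
            · exact hf'2 t'' ht''
          · refine ⟨fun u => xor (f' u) (f u), fun u w h => ?_, fun t'' ht'' => ?_⟩
            · simp only [hf' u w h, hf u w h]
            · rw [Finset.mem_insert] at ht''
              rcases ht'' with rfl | ht''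
              · constructor
                · intro h
                  exfalso
                  apply h
                  change (f' (a t'') ^^ f (a t'')) = (f' (b t'') ^^ f (b t''))
                  revert hc hft
                  cases f' (a t'') <;> cases f' (b t'') <;> cases f (a t'') <;>
                    cases f (b t'') <;> simp
                · intro h
                  exact absurd h htt'
              · rw [← hf'2 t'' ht'']
                have h3 := hfS t'' ht''
                change (f' (a t'') ^^ f (a t'')) ≠ (f' (b t'') ^^ f (b t'')) ↔ _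
                rw [h3]
                cases f' (a t'') <;> cases f' (b t'') <;> cases f (b t'') <;> simp
    have h5 := hmax _ hG'
    rw [Finset.card_insert_of_notMem htS] at h5
    omega
  -- trivialisation over `S`
  have htriv : ∀ (M : Type) [Group M] (m : T → M), ∃ q : V → M, q o = 1 ∧
      (∀ u w, e0 u w → q u = q w) ∧ ∀ t ∈ S, m t = (q (a t))⁻¹ * q (b t) := by
    intro M _ m
    have key : ∀ F ⊆ S, ∃ q : V → M, (∀ u w, e0 u w → q u = q w) ∧
        ∀ t ∈ F, m t = (q (a t))⁻¹ * q (b t) := by
      intro F
      induction F using Finset.induction_on with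
      | empty => exact fun _ => ⟨fun _ => 1, by simp, by simp⟩
      | insert t F ht ih =>
        intro hF
        obtain ⟨q, hq1, hq2⟩ := ih fun x hx => hF (Finset.mem_insert_of_mem hx)
        have htS := hF (Finset.mem_insert_self t F)
        obtain ⟨c, hc1, hc2⟩ := hS2 t htS
        refine ⟨fun u => if c u = c (a t) then q u else q (a t) * m t * (q (b t))⁻¹ * q u,
          fun u w h => ?_, fun t' ht' => ?_⟩
        · simp only [hc1 u w h, hq1 u w h]
        · have ht'S := hF ht'
          rw [Finset.mem_insert] at ht'
          by_cases htt : t' = t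
          · subst htt
            have h1 : ¬ c (b t') = c (a t') := fun h => (hc2 t' htS).2 rfl h.symm
            simp only [if_true, h1, if_false]
            group
          · have h1 : c (a t') = c (b t') := by
              by_contra h
              exact htt ((hc2 t' ht'S).1 h)
            have h2 := hq2 t' (ht'.resolve_left htt)
            by_cases h3 : c (a t') = c (a t)
            · have h4 : c (b t') = c (a t) := h1 ▸ h3
              simp only [h3, h4, if_true]
              exact h2
            · have h4 : ¬ c (b t') = c (a t) := h1 ▸ h3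
              simp only [h3, h4, if_false]
              rw [h2]
              group
    obtain ⟨q, hq1, hq2⟩ := key S (Finset.Subset.refl S)
    refine ⟨fun u => (q o)⁻¹ * q u, by simp, fun u w h => by simp only [hq1 u w h], fun t ht => ?_⟩
    rw [hq2 t ht]
    group
  -- the free group
  let J : Type := {t : T // t ∉ S}
  let m : T → FreeGroup J := fun t => if h : t ∉ S then of ⟨t, h⟩ else 1
  have hmS : ∀ t ∈ S, m t = 1 := fun t ht => dif_neg (by simpa using ht)
  have hmJ : ∀ t : J, m t.1 = of t := fun t => dif_pos t.2
  obtain ⟨⟨h, p⟩, ⟨hp0, hp1, hp2⟩, -⟩ := huniv (FreeGroup J) m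
  dsimp only at hp0 hp1 hp2
  obtain ⟨q, hq0, hq1, hq2⟩ := htriv H ρ
  let j : FreeGroup J →* H := FreeGroup.lift fun t : J => q (a t.1) * ρ t.1 * (q (b t.1))⁻¹
  have hj : ∀ t : J, j (of t) = q (a t.1) * ρ t.1 * (q (b t.1))⁻¹ := fun t => by
    simp [j]
  -- `j ∘ h = id`
  have hjh : ∀ x, j (h x) = x := by
    have h1 := huniv H (fun t => j (m t))
    have h2 := h1.unique (y₁ := (j.comp h, fun u => j (p u))) (y₂ := (MonoidHom.id H, fun u => (q u)⁻¹))
      ⟨by simp [hp0], fun u w hh => by simp only [hp1 u w hh], fun t u w hi => by
        simp only [MonoidHom.comp_apply]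
        rw [hp2 t u w hi, _root_.map_mul, _root_.map_mul, _root_.map_inv]⟩
      ⟨by simp [hq0], fun u w hh => by simp only [hq1 u w hh], by
        apply hsol H (fun t => j (m t)) (MonoidHom.id H, fun u => (q u)⁻¹)
        · intro u w hh
          simp only [hq1 u w hh]
        · intro t
          simp only [MonoidHom.id_apply, _root_.inv_inv]
          by_cases ht : t ∈ S
          · rw [hmS t ht, _root_.map_one, hq2 t ht]
            group
          · rw [hmJ ⟨t, ht⟩, hj]⟩
    intro x
    have h3 := DFunLike.congr_fun (congrArg Prod.fst h2) x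
    exact h3
  -- `h ∘ j = id`
  have hr : ∀ u, h (q u) * p u = 1 := by
    have h1 : ∀ u w, h (q u) * p u = h (q w) * p w := by
      intro u w
      have h2 := hconst (fun x => decide (h (q x) * p x = h (q w) * p w))
        (fun x y hxy => by simp only [hq1 x y hxy, hp1 x y hxy])
        (fun t ht => by
          have h3 := hp2 t _ _ (hab t)
          rw [hmS t ht, hq2 t ht, _root_.map_mul, _root_.map_inv] at h3
          have h4 : h (q (a t)) * p (a t) = h (q (b t)) * p (b t) := by
            have h5 : h (q (a t)) * p (a t) = h (q (a t)) * p (a t) *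
              ((p (a t))⁻¹ * ((h (q (a t)))⁻¹ * h (q (b t))) * p (b t)) := by rw [← h3, mul_one]
            rw [h5]
            group
          rw [h4]) u w
      simpa using h2
    intro u
    rw [h1 u o, hp0, hq0, _root_.map_one, mul_one]
  have hhj : ∀ x, h (j x) = x := by
    have h1 : h.comp j = MonoidHom.id (FreeGroup J) := by
      ext t
      simp only [MonoidHom.comp_apply, MonoidHom.id_apply]
      rw [hj, _root_.map_mul, _root_.map_mul, _root_.map_inv]
      have h2 := hp2 t.1 _ _ (hab t.1)
      rw [hmJ t] at h2
      have h3 := hr (a t.1)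
      have h4 := hr (b t.1)
      have h5 : h (q (a t.1)) = (p (a t.1))⁻¹ := eq_inv_of_mul_eq_one_left h3
      have h6 : h (q (b t.1)) = (p (b t.1))⁻¹ := eq_inv_of_mul_eq_one_left h4
      rw [h5, h6, _root_.inv_inv, ← h2]
    intro x
    exact DFunLike.congr_fun h1 x
  let e : H ≃* FreeGroup J := { h with invFun := j, left_inv := hjh, right_inv := hhj }
  have he : ∀ x, e x = h x := fun _ => rfl
  let T1 : J := ⟨t1, hS1⟩
  apply hfill J e T1
  -- killing `t1`
  let κ : FreeGroup J →* FreeGroup J := FreeGroup.lift fun t : J => if t = T1 then 1 else of t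
  have hκ : ∀ t : J, κ (of t) = if t = T1 then 1 else of t := fun t => by simp [κ]
  have hfix := hv (FreeGroup J) m (fun t => κ (m t)) (h, p) (κ.comp h, fun u => κ (p u))
    ⟨hp0, hp1, hp2⟩
    ⟨by simp [hp0], fun u w hh => by simp only [hp1 u w hh], fun t u w hi => by
      simp only [MonoidHom.comp_apply]
      rw [hp2 t u w hi, _root_.map_mul, _root_.map_mul, _root_.map_inv]⟩
    (fun t ht => by
      by_cases htS : t ∈ S
      · rw [hmS t htS, _root_.map_one]
      · have h1 : (⟨t, htS⟩ : J) ≠ T1 := fun hh => ht (congrArg Subtype.val hh)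
        have h2 := hmJ ⟨t, htS⟩
        dsimp only at h2
        rw [h2, hκ, if_neg h1])
  have hfix2 : h v = κ (h v) := hfix
  rw [he, hfix2]
  have hrange : ∀ x, κ x ∈ Subgroup.closure (FreeGroup.of '' {T1}ᶜ) := by
    intro x
    induction x using FreeGroup.induction_on with
    | C1 => rw [_root_.map_one]; exact one_mem _
    | of t =>
      rw [hκ]
      split_ifs with h1
      · exact one_mem _
      · exact Subgroup.subset_closure ⟨t, h1, rfl⟩
    | inv_of t h1 => rw [_root_.map_inv]; exact inv_mem h1
    | mul x y h1 h2 => rw [_root_.map_mul]; exact mul_mem h1 h2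
  exact hrange _

end Pool.Agent.Helper35_WH
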