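import Pool.Agent.Helper35_WH.Stmt1

/-!
# NPV, first part: the abstract verifier

Certificates: `τ₁ w₁ τ₂ w₂ …` with small automorphisms `τᵢ` and reduced words `wᵢ`.
-/

namespace Pool.Agent.Helper35_WH

open FreeGroup Pool.Agent.Helper32_HCK

namespace NPV

/-- tokens for the small automorphisms -/
abbrev Tok (n K : ℕ) : Type := {τ : FG n ≃* FG n // Small n K τ}

/-- words of bounded length -/
theorem finite_words (n K : ℕ) : Finite {w : List (Lt n) // w.length ≤ K} := by
  have : {w : List (Lt n) | w.length ≤ K}.Finite := List.finite_length_le _ _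
  exact this.to_subtype

instance finite_Tok (n K : ℕ) : Finite (Tok n K) := by
  have := finite_words n K
  refine Finite.of_injective (β := Fin n → {w : List (Lt n) // w.length ≤ K})
    (fun τ i => ⟨(τ.1 (of i)).toWord, (τ.2 i).1⟩) ?_
  intro τ τ' h
  apply Subtype.ext
  have h1 : ∀ i, τ.1 (of i) = τ'.1 (of i) := fun i =>
    FreeGroup.toWord_injective (congrArg Subtype.val (congrFun h i))
  have h2 : τ.1.toMonoidHom = τ'.1.toMonoidHom := by
    ext i
    exact h1 i
  ext x
  exact DFunLike.congr_fun h2 x

/-- the letters read by the verifier -/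
abbrev Sym (n K : ℕ) : Type := Option (Lt n) ⊕ (Tok n K ⊕ Lt n)

/-- prepend a letter to a reduced word -/
def pre {n : ℕ} (b : Lt n) : List (Lt n) → List (Lt n)
  | [] => [b]
  | c :: r => if c = inv b then r else b :: c :: r

theorem reduce_cons' {n : ℕ} (b : Lt n) (L : List (Lt n)) :
    FreeGroup.reduce (b :: L) = pre b (FreeGroup.reduce L) := by
  rw [FreeGroup.reduce.cons]
  cases h : FreeGroup.reduce L with
  | nil => rfl
  | cons c r =>
    obtain ⟨b1, b2⟩ := b
    obtain ⟨c1, c2⟩ := c
    simp only [pre, inv, Prod.mk.injEq]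
    have e : (b1 = c1 ∧ b2 = !c2) ↔ (c1 = b1 ∧ c2 = !b2) := by
      constructor
      · rintro ⟨rfl, rfl⟩
        simp
      · rintro ⟨rfl, rfl⟩
        simp
    by_cases h2 : c1 = b1 ∧ c2 = !b2
    · rw [if_pos h2, if_pos (e.2 h2)]
    · rw [if_neg h2, if_neg (fun h3 => h2 (e.1 h3))]

theorem reduce_append' {n : ℕ} (u L : List (Lt n)) :
    FreeGroup.reduce (u ++ L) = u.foldr pre (FreeGroup.reduce L) := by
  induction u with
  | nil => rfl
  | cons b u ih => rw [List.cons_append, reduce_cons', ih]; rfl

/-- the image of a letter -/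
def img {n K : ℕ} (τ : Tok n K) (ℓ : Lt n) : List (Lt n) := (τ.1 (FreeGroup.mk [ℓ])).toWord

theorem mk_flatMap {n K : ℕ} (τ : Tok n K) (w : List (Lt n)) :
    FreeGroup.mk (w.flatMap (img τ)) = τ.1 (FreeGroup.mk w) := by
  induction w with
  | nil =>
    rw [List.flatMap_nil]
    exact (_root_.map_one τ.1).symm
  | cons ℓ w ih =>
    have h1 : FreeGroup.mk (ℓ :: w) = FreeGroup.mk [ℓ] * FreeGroup.mk w := by
      rw [FreeGroup.mul_mk]
      rfl
    rw [h1, _root_.map_mul, ← ih, List.flatMap_cons, ← FreeGroup.mul_mk]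
    congr 1
    exact FreeGroup.mk_toWord

/-- applying `τ` to the word stored on `W` (last letter first), the result is built on `R` -/
def appl {n K : ℕ} (τ : Tok n K) (W R : List (Lt n)) : List (Lt n) :=
  W.foldl (fun r ℓ => (img τ ℓ).foldr pre r) R

theorem appl_eq {n K : ℕ} (τ : Tok n K) (w : List (Lt n)) :
    appl τ w.reverse [] = FreeGroup.reduce (w.flatMap (img τ)) := by
  unfold appl
  rw [List.foldl_reverse]
  induction w with
  | nil => rfl
  | cons ℓ w ih =>
    rw [List.foldr_cons, List.flatMap_cons, reduce_append', ih]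

theorem appl_toWord {n K : ℕ} (τ : Tok n K) (w : List (Lt n)) :
    appl τ w.reverse [] = (τ.1 (FreeGroup.mk w)).toWord := by
  rw [appl_eq, ← mk_flatMap, FreeGroup.toWord_mk]

/-- the state of the abstract verifier -/
structure ASt (n : ℕ) where
  /-- the marker has been read -/
  ph : Bool
  /-- no error so far -/
  ok : Bool
  /-- the target word, last letter first -/
  U : List (Lt n)
  /-- the current word, last letter first -/
  W : List (Lt n)
  /-- the word to be compared, first letter first -/
  R : List (Lt n)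

/-- one step of the verifier -/
noncomputable def astep {n K : ℕ} (s : ASt n) : Sym n K → ASt n
  | .inl (some ℓ) => if s.ph then { s with W := ℓ :: s.W } else { s with U := ℓ :: s.U }
  | .inl none => { s with ph := true }
  | .inr (.inl τ) => { s with ok := s.ok && s.R.head?.isNone, R := appl τ s.W s.R.tail, W := [] }
  | .inr (.inr ℓ) => { s with ok := s.ok && decide (s.R.head? = some ℓ), R := s.R.tail,
                              W := ℓ :: s.W }

/-- start -/
def ainit (n : ℕ) : ASt n := ⟨false, true, [], [], []⟩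

/-- comparison of two stacks -/
def cmpr {n : ℕ} : Bool → List (Lt n) → List (Lt n) → Bool × List (Lt n)
  | ok, [], w => (ok, w)
  | ok, a :: u, w => cmpr (ok && decide (w.head? = some a)) u w.tail

theorem cmpr_false {n : ℕ} : ∀ (u w : List (Lt n)), (cmpr false u w).1 = false
  | [], _ => rfl
  | _ :: u, w => by
    rw [cmpr, Bool.false_and]
    exact cmpr_false u w.tail

theorem cmpr_iff {n : ℕ} : ∀ (u w : List (Lt n)),
    ((cmpr true u w).1 = true ∧ (cmpr true u w).2 = []) ↔ w = u
  | [], w => by simp [cmpr]
  | a :: u, w => by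
    rw [cmpr, Bool.true_and]
    cases w with
    | nil =>
      have h1 : decide ((([] : List (Lt n)).head?) = some a) = false := by simp
      rw [h1, cmpr_false]
      simp
    | cons b w =>
      simp only [List.head?_cons, List.tail_cons, Option.some.injEq]
      by_cases h : b = a
      · subst h
        rw [decide_eq_true rfl, cmpr_iff u w]
        simp
      · rw [decide_eq_false h, cmpr_false]
        simp [h]

/-- acceptance -/
def afin {n : ℕ} (s : ASt n) : Bool :=
  (cmpr s.ok s.U s.W).1 && (cmpr s.ok s.U s.W).2.head?.isNone && s.R.head?.isNone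

theorem afin_iff {n : ℕ} (s : ASt n) : afin s = true ↔ s.ok = true ∧ s.W = s.U ∧ s.R = [] := by
  obtain ⟨ph, ok, U, W, R⟩ := s
  unfold afin
  simp only [Bool.and_eq_true, Option.isNone_iff_eq_none, List.head?_eq_none_iff]
  cases ok with
  | false => simp [cmpr_false]
  | true =>
    rw [cmpr_iff]
    simp

/-- the verifier -/
noncomputable def averify {n K : ℕ} (l : List (Sym n K)) : Bool := afin (l.foldl astep (ainit n))

theorem fold_ok {n K : ℕ} (c : List (Tok n K ⊕ Lt n)) : ∀ s : ASt n, s.ok = false →
    ((c.map (Sum.inr : _ → Sym n K)).foldl astep s).ok = false := by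
  induction c with
  | nil => exact fun s h => h
  | cons a c ih =>
    intro s h
    rw [List.map_cons, List.foldl_cons]
    apply ih
    rcases a with τ | ℓ
    · simp [astep, h]
    · simp [astep, h]

theorem fold_U {n K : ℕ} (c : List (Tok n K ⊕ Lt n)) : ∀ s : ASt n,
    ((c.map (Sum.inr : _ → Sym n K)).foldl astep s).U = s.U := by
  induction c with
  | nil => exact fun s => rfl
  | cons a c ih =>
    intro s
    rw [List.map_cons, List.foldl_cons, ih]
    rcases a with τ | ℓ <;> rfl

/-- soundness -/
theorem sound {n K : ℕ} (c : List (Tok n K ⊕ Lt n)) : ∀ s : ASt n,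
    afin ((c.map (Sum.inr : _ → Sym n K)).foldl astep s) = true →
    ∃ φ : FG n ≃* FG n, φ (FreeGroup.mk (s.W.reverse ++ s.R)) = FreeGroup.mk s.U.reverse := by
  induction c with
  | nil =>
    intro s h
    have h' : afin s = true := h
    rw [afin_iff] at h'
    obtain ⟨-, h1, h2⟩ := h'
    exact ⟨MulEquiv.refl _, by rw [h1, h2, List.append_nil]; rfl⟩
  | cons a c ih =>
    intro s h
    have hok : s.ok = true := by
      by_contra hcon
      have h1 := fold_ok (a :: c) s (by simpa using hcon)
      rw [afin_iff] at h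
      rw [h1] at h
      exact absurd h.1 (by simp)
    rw [List.map_cons, List.foldl_cons] at h
    have hok2 : (astep s (Sum.inr a : Sym n K)).ok = true := by
      by_contra hcon
      have h1 := fold_ok c (astep s (Sum.inr a : Sym n K)) (by simpa using hcon)
      rw [afin_iff] at h
      rw [h1] at h
      exact absurd h.1 (by simp)
    obtain ⟨φ, hφ⟩ := ih _ h
    rcases a with τ | ℓ
    · simp only [astep, hok, Bool.true_and, Option.isNone_iff_eq_none,
        List.head?_eq_none_iff] at hok2
      refine ⟨τ.1.trans φ, ?_⟩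
      simp only [astep, hok2, List.tail_nil, List.reverse_nil, List.nil_append] at hφ
      rw [hok2, List.append_nil, MulEquiv.trans_apply]
      have h1 : appl τ s.W [] = (τ.1 (FreeGroup.mk s.W.reverse)).toWord := by
        have := appl_toWord τ s.W.reverse
        rwa [List.reverse_reverse] at this
      rw [h1, FreeGroup.mk_toWord] at hφ
      exact hφ
    · simp only [astep, hok, Bool.true_and, decide_eq_true_eq] at hok2
      refine ⟨φ, ?_⟩
      have hφ' : φ (FreeGroup.mk ((ℓ :: s.W).reverse ++ s.R.tail)) =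
        FreeGroup.mk s.U.reverse := hφ
      rw [← hφ']
      congr 2
      cases hR : s.R with
      | nil => rw [hR] at hok2; simp at hok2
      | cons b R =>
        rw [hR] at hok2
        simp only [List.head?_cons, Option.some.injEq] at hok2
        subst hok2
        simp

/-- reading a word that agrees with `R` -/
theorem fold_word {n K : ℕ} (w : List (Lt n)) : ∀ (ph : Bool) (U W : List (Lt n)),
    ((w.map fun ℓ => (Sum.inr (Sum.inr ℓ) : Sym n K)).foldl astep ⟨ph, true, U, W, w⟩) =
      ⟨ph, true, U, w.reverse ++ W, []⟩ := by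
  induction w with
  | nil => exact fun _ _ _ => rfl
  | cons ℓ w ih =>
    intro ph U W
    rw [List.map_cons, List.foldl_cons]
    have h1 : astep (⟨ph, true, U, W, ℓ :: w⟩ : ASt n) (Sum.inr (Sum.inr ℓ) : Sym n K) =
        ⟨ph, true, U, ℓ :: W, w⟩ := by
      simp [astep]
    rw [h1, ih]
    simp

/-- one block of the certificate -/
theorem fold_block {n K : ℕ} (τ : Tok n K) (g : FG n) (ph : Bool) (U : List (Lt n)) :
    (((Sum.inr (Sum.inl τ) : Sym n K) ::
      ((τ.1 g).toWord.map fun ℓ => (Sum.inr (Sum.inr ℓ) : Sym n K))).foldl astep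
        ⟨ph, true, U, g.toWord.reverse, []⟩) = ⟨ph, true, U, (τ.1 g).toWord.reverse, []⟩ := by
  rw [List.foldl_cons]
  have h1 : astep (⟨ph, true, U, g.toWord.reverse, []⟩ : ASt n) (Sum.inr (Sum.inl τ) : Sym n K) =
      ⟨ph, true, U, [], (τ.1 g).toWord⟩ := by
    simp only [astep, List.head?_nil, Option.isNone_none, Bool.and_true, List.tail_nil]
    rw [appl_toWord, FreeGroup.mk_toWord]
  rw [h1, fold_word, List.append_nil]

/-- completeness -/
theorem complete {n K L : ℕ} : ∀ (N : ℕ) (u v : FG n), Conn n K L N u v →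
    ∃ c : List (Tok n K ⊕ Lt n), c.length ≤ N * (L + 1) ∧ ∀ (ph : Bool) (U : List (Lt n)),
      ((c.map (Sum.inr : _ → Sym n K)).foldl astep ⟨ph, true, U, u.toWord.reverse, []⟩) =
        ⟨ph, true, U, v.toWord.reverse, []⟩ := by
  intro N
  induction N with
  | zero =>
    rintro u v ⟨w, h0, h1, -, -⟩
    refine ⟨[], by simp, fun ph U => ?_⟩
    rw [← h0, ← h1]
    rfl
  | succ N ih =>
    rintro u v ⟨w, h0, h1, h2, h3⟩
    obtain ⟨c, hc, hc2⟩ := ih u (w N) ⟨w, h0, rfl, fun i hi => h2 i (by omega),
      fun i hi => h3 i (by omega)⟩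
    obtain ⟨τ, hτ, hw⟩ := h3 N (by omega)
    refine ⟨c ++ (Sum.inl ⟨τ, hτ⟩ :: (w (N + 1)).toWord.map Sum.inr), ?_, fun ph U => ?_⟩
    · have h4 := h2 (N + 1) le_rfl
      have h5 : (w (N + 1)).toWord.length = (w (N + 1)).norm := rfl
      rw [List.length_append, List.length_cons, List.length_map, h5]
      nlinarith
    · rw [List.map_append, List.foldl_append, hc2, ← h1]
      have h6 := fold_block (K := K) ⟨τ, hτ⟩ (w N) ph U
      rw [← hw] at h6
      rw [List.map_cons, List.map_map]
      exact h6

/-- reading the instance -/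
theorem fold_inst {n K : ℕ} (x : FG n × FG n) :
    (((encodePair n x).map (Sum.inl : _ → Sym n K)).foldl astep (ainit n)) =
      ⟨true, true, x.1.toWord.reverse, x.2.toWord.reverse, []⟩ := by
  have h1 : ∀ (w U : List (Lt n)), ((w.map some).map (Sum.inl : _ → Sym n K)).foldl astep
      ⟨false, true, U, [], []⟩ = ⟨false, true, w.reverse ++ U, [], []⟩ := by
    intro w
    induction w with
    | nil => exact fun _ => rfl
    | cons ℓ w ih =>
      intro U
      rw [List.map_cons, List.map_cons, List.foldl_cons]
      have : astep (⟨false, true, U, [], []⟩ : ASt n) (Sum.inl (some ℓ) : Sym n K) =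
          ⟨false, true, ℓ :: U, [], []⟩ := by simp [astep]
      rw [this, ih]
      simp
  have h2 : ∀ (w U W : List (Lt n)), ((w.map some).map (Sum.inl : _ → Sym n K)).foldl astep
      ⟨true, true, U, W, []⟩ = ⟨true, true, U, w.reverse ++ W, []⟩ := by
    intro w
    induction w with
    | nil => exact fun _ _ => rfl
    | cons ℓ w ih =>
      intro U W
      rw [List.map_cons, List.map_cons, List.foldl_cons]
      have : astep (⟨true, true, U, W, []⟩ : ASt n) (Sum.inl (some ℓ) : Sym n K) =
          ⟨true, true, U, ℓ :: W, []⟩ := by simp [astep]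
      rw [this, ih]
      simp
  unfold encodePair ainit
  rw [List.map_append, List.foldl_append, h1, List.map_cons, List.foldl_cons]
  have : astep (⟨false, true, x.1.toWord.reverse ++ [], [], []⟩ : ASt n) (Sum.inl none : Sym n K) =
      ⟨true, true, x.1.toWord.reverse, [], []⟩ := by simp [astep]
  rw [this, h2, List.append_nil]

theorem length_enc {n : ℕ} (x : FG n × FG n) :
    (encodePair n x).length = x.1.norm + x.2.norm + 1 := by
  unfold encodePair
  rw [List.length_append, List.length_cons, List.length_map, List.length_map]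
  rfl

theorem eval_mono (P : Polynomial ℕ) {a b : ℕ} (h : a ≤ b) : P.eval a ≤ P.eval b := by
  rw [Polynomial.eval_eq_sum_range, Polynomial.eval_eq_sum_range]
  exact Finset.sum_le_sum fun i _ => Nat.mul_le_mul_left _ (Nat.pow_le_pow_left h i)

/-- the verifier as a function on pairs -/
noncomputable def verify (n K : ℕ) (x : (FG n × FG n) × List (Tok n K ⊕ Lt n)) : Bool :=
  averify ((whiteheadProblem n).encPair (B := Tok n K ⊕ Lt n) x)

theorem verify_key (n K : ℕ) (P : Polynomial ℕ)
    (h : ∀ u v : FG n, (∃ φ : FG n ≃* FG n, φ v = u) →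
      Conn n K (P.eval (u.norm + v.norm)) (P.eval (u.norm + v.norm)) v u)
    (x : FG n × FG n) : (∃ φ : FG n ≃* FG n, φ x.2 = x.1) ↔
      ∃ c : List (Tok n K ⊕ Lt n), c.length ≤ (P * (P + 1)).eval (encodePair n x).length ∧
        verify n K (x, c) = true := by
  have hv : ∀ c, verify n K (x, c) = afin ((c.map (Sum.inr : _ → Sym n K)).foldl astep
      ⟨true, true, x.1.toWord.reverse, x.2.toWord.reverse, []⟩) := by
    intro c
    have h0 : verify n K (x, c) = averify ((encodePair n x).map (Sum.inl : _ → Sym n K) ++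
      c.map Sum.inr) := rfl
    rw [h0, averify, List.foldl_append, fold_inst]
  constructor
  · intro hx
    obtain ⟨c, hc, hc2⟩ := complete _ _ _ (h x.1 x.2 hx)
    refine ⟨c, ?_, ?_⟩
    · refine hc.trans ?_
      rw [Polynomial.eval_mul, Polynomial.eval_add, Polynomial.eval_one, length_enc]
      exact Nat.mul_le_mul (eval_mono P (by omega)) (Nat.add_le_add_right (eval_mono P (by omega)) 1)
    · rw [hv, hc2, afin_iff]
      exact ⟨rfl, rfl, rfl⟩
  · rintro ⟨c, -, hc⟩
    rw [hv] at hc
    obtain ⟨φ, hφ⟩ := sound c _ hc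
    refine ⟨φ, ?_⟩
    have hφ' : φ (FreeGroup.mk (x.2.toWord.reverse.reverse ++ [])) =
      FreeGroup.mk x.1.toWord.reverse.reverse := hφ
    rwa [List.reverse_reverse, List.reverse_reverse, List.append_nil, FreeGroup.mk_toWord,
      FreeGroup.mk_toWord] at hφ'

end NPV

end Pool.Agent.Helper35_WH
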