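import Pool.Agent.Helper19_WH.NPVa
import Pool.Agent.Helper32_Poly.Morphism

/-!
# NPV, second part: the verifier as a structured stack program
-/

namespace Pool.Agent.Helper35_WH

open FreeGroup Pool.Agent.Helper32_HCK Pool.Agent.Helper32_Poly Function

namespace NPV

/-- five stacks -/
inductive KS
  | inp | u | w | r | out
  deriving DecidableEq

instance : Fintype KS := ⟨{.inp, .u, .w, .r, .out}, by intro x; cases x <;> decide⟩

/-- alphabets -/
abbrev GS (n K : ℕ) : KS → Type
  | .inp => Sym n K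
  | .u => Lt n
  | .w => Lt n
  | .r => Lt n
  | .out => Bool

/-- contents -/
def SS {n K : ℕ} (x : List (Sym n K)) (u w r : List (Lt n)) : ∀ k, List (GS n K k)
  | .inp => x
  | .u => u
  | .w => w
  | .r => r
  | .out => []

section

variable {n K : ℕ}

@[simp] theorem SS_inp (x : List (Sym n K)) (u w r : List (Lt n)) : SS x u w r .inp = x := rfl
@[simp] theorem SS_u (x : List (Sym n K)) (u w r : List (Lt n)) : SS x u w r .u = u := rfl
@[simp] theorem SS_w (x : List (Sym n K)) (u w r : List (Lt n)) : SS x u w r .w = w := rfl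
@[simp] theorem SS_r (x : List (Sym n K)) (u w r : List (Lt n)) : SS x u w r .r = r := rfl

theorem SS_update_inp (x : List (Sym n K)) (u w r : List (Lt n)) (x') :
    update (SS x u w r) KS.inp x' = SS x' u w r := by
  funext k; cases k <;> rfl
theorem SS_update_u (x : List (Sym n K)) (u w r : List (Lt n)) (x') :
    update (SS x u w r) KS.u x' = SS x x' w r := by
  funext k; cases k <;> rfl
theorem SS_update_w (x : List (Sym n K)) (u w r : List (Lt n)) (x') :
    update (SS x u w r) KS.w x' = SS x u x' r := by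
  funext k; cases k <;> rfl
theorem SS_update_r (x : List (Sym n K)) (u w r : List (Lt n)) (x') :
    update (SS x u w r) KS.r x' = SS x u w x' := by
  funext k; cases k <;> rfl
theorem SS_zero (x : List (Sym n K)) :
    update (fun _ => [] : ∀ k, List (GS n K k)) KS.inp x = SS x [] [] [] := by
  funext k; cases k <;> rfl

end

/-- internal memory: letter register, register for `W` and `U`, register for `R`, marker seen,
no error -/
abbrev Mem (n K : ℕ) : Type :=
  Option (Sym n K) × Option (Lt n) × Option (Lt n) × Bool × Bool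

noncomputable instance (n K : ℕ) : Fintype (Tok n K) := Fintype.ofFinite _

variable {n K : ℕ}

/-- push a letter on `R` with reduction -/
noncomputable def pushRed (b : Lt n) : Prog (GS n K) (Mem n K) :=
  .seq (.pop .r (fun v o => (v.1, v.2.1, o, v.2.2.2)))
    (.ite (fun v => decide (v.2.2.1 = some (inv b))) .skip
      (.seq (.ite (fun v => v.2.2.1.isSome) (.push .r (fun v => v.2.2.1.getD b)) .skip)
        (.push .r (fun _ => b))))

theorem pushRed_run (b : Lt n) (a : Option (Sym n K)) (p q : Option (Lt n)) (c : Bool × Bool)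
    (x : List (Sym n K)) (u w r : List (Lt n)) :
    ∃ q' t, t ≤ 5 ∧ Prog.Run (pushRed b) (a, p, q, c) (SS x u w r)
      (a, p, q', c) (SS x u w (pre b r)) t := by
  have h1 := Prog.Run.pop (Γ := GS n K) KS.r
    (fun (v : Mem n K) o => (v.1, v.2.1, o, v.2.2.2)) (a, p, q, c) (SS x u w r)
  rw [SS_update_r, SS_r] at h1
  cases r with
  | nil =>
    refine ⟨none, 1 + (1 + ((1 + 1) + 1)), by norm_num, Prog.Run.seq h1 ?_⟩
    refine Prog.Run.ite_false (by simp) ?_
    refine Prog.Run.seq (Prog.Run.ite_false (by simp) (Prog.skip_run _ _)) ?_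
    have h2 := Prog.Run.push (Γ := GS n K) KS.r (fun _ : Mem n K => b) (a, p, none, c)
      (SS x u w [])
    rw [SS_update_r, SS_r] at h2
    exact h2
  | cons c' r =>
    by_cases hc : c' = inv b
    · refine ⟨some c', 1 + (1 + 1), by norm_num, Prog.Run.seq h1 ?_⟩
      have h2 : pre b (c' :: r) = r := by simp [pre, hc]
      rw [h2]
      exact Prog.Run.ite_true (by simp [hc]) (Prog.skip_run _ _)
    · refine ⟨some c', 1 + (1 + ((1 + 1) + 1)), by norm_num, Prog.Run.seq h1 ?_⟩
      have h2 : pre b (c' :: r) = b :: c' :: r := by simp [pre, hc]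
      rw [h2]
      refine Prog.Run.ite_false (by simp [hc]) ?_
      have h3 := Prog.Run.push (Γ := GS n K) KS.r (fun v : Mem n K => v.2.2.1.getD b)
        (a, p, some c', c) (SS x u w r)
      rw [SS_update_r, SS_r] at h3
      have h4 := Prog.Run.push (Γ := GS n K) KS.r (fun _ : Mem n K => b) (a, p, some c', c)
        (SS x u w (c' :: r))
      rw [SS_update_r, SS_r] at h4
      exact Prog.Run.seq (Prog.Run.ite_true (by simp) h3) h4

/-- multiply the word on `R` from the left by a fixed word -/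
noncomputable def preWord : List (Lt n) → Prog (GS n K) (Mem n K)
  | [] => .skip
  | b :: l => .seq (preWord l) (pushRed b)

theorem preWord_run (a : Option (Sym n K)) (p : Option (Lt n)) (c : Bool × Bool)
    (x : List (Sym n K)) (u w r : List (Lt n)) : ∀ (l : List (Lt n)) (q : Option (Lt n)),
    ∃ q' t, t ≤ 5 * l.length + 1 ∧ Prog.Run (preWord l) (a, p, q, c) (SS x u w r)
      (a, p, q', c) (SS x u w (l.foldr pre r)) t
  | [], q => ⟨q, 1, by simp, Prog.skip_run _ _⟩
  | b :: l, q => by
    obtain ⟨q1, t1, ht1, h1⟩ := preWord_run a p c x u w r l q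
    obtain ⟨q2, t2, ht2, h2⟩ := pushRed_run b a p q1 c x u w (l.foldr pre r)
    refine ⟨q2, t1 + t2, ?_, Prog.Run.seq h1 h2⟩
    rw [List.length_cons]
    omega

/-- the pair of the automorphism in the letter register and the letter in the second register -/
def getTL (v : Mem n K) : Option (Tok n K × Lt n) :=
  match v.1, v.2.1 with
  | some (.inr (.inl τ)), some ℓ => some (τ, ℓ)
  | _, _ => none

/-- apply the automorphism to the letter -/
noncomputable def appSwitch : Prog (GS n K) (Mem n K) :=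
  Prog.switch getTL (fun x => preWord (img x.1 x.2)) (Finset.univ : Finset (Tok n K × Lt n)).toList

theorem img_length (τ : Tok n K) (ℓ : Lt n) : (img τ ℓ).length ≤ K := by
  obtain ⟨i, b⟩ := ℓ
  have h1 : (img τ (i, b)).length = (τ.1 (FreeGroup.mk [(i, b)])).norm := rfl
  rw [h1]
  cases b with
  | true => exact (τ.2 i).1
  | false =>
    have h2 : (FreeGroup.mk [(i, false)] : FG n) = (of i)⁻¹ := rfl
    rw [h2, _root_.map_inv, FreeGroup.norm_inv_eq]
    exact (τ.2 i).1

/-- time for one letter -/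
noncomputable def c1 (n K : ℕ) : ℕ := 5 * K + 1 + Fintype.card (Tok n K × Lt n)

theorem appSwitch_run (τ : Tok n K) (ℓ : Lt n) (q : Option (Lt n)) (c : Bool × Bool)
    (x : List (Sym n K)) (u w r : List (Lt n)) :
    ∃ q' t, t ≤ c1 n K ∧ Prog.Run appSwitch (some (.inr (.inl τ)), some ℓ, q, c) (SS x u w r)
      (some (.inr (.inl τ)), some ℓ, q', c) (SS x u w ((img τ ℓ).foldr pre r)) t := by
  obtain ⟨q', t, ht, h⟩ := preWord_run (some (.inr (.inl τ)) : Option (Sym n K)) (some ℓ) c x u w r
    (img τ ℓ) q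
  obtain ⟨t', ht', h'⟩ := Prog.switch_run (Γ := GS n K) getTL
    (fun x => preWord (img x.1 x.2)) (a := (τ, ℓ))
    (v := (some (.inr (.inl τ)), some ℓ, q, c)) rfl h
    (Finset.univ : Finset (Tok n K × Lt n)).toList (by simp)
  refine ⟨q', t', ?_, h'⟩
  have h3 := img_length τ ℓ
  rw [Finset.length_toList, Finset.card_univ] at ht'
  unfold c1
  omega

/-- apply the automorphism to the word on `W` -/
noncomputable def appProg : Prog (GS n K) (Mem n K) :=
  .forEach .w (fun v => v.2.1) (fun v o => (v.1, o, v.2.2)) appSwitch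

theorem appProg_run (τ : Tok n K) (p q : Option (Lt n)) (c : Bool × Bool)
    (x : List (Sym n K)) (u w r : List (Lt n)) :
    ∃ q' t, t ≤ w.length * (c1 n K + 2) + 2 ∧
      Prog.Run appProg (some (.inr (.inl τ)), p, q, c) (SS x u w r)
      (some (.inr (.inl τ)), none, q', c) (SS x u [] (appl τ w r)) t := by
  obtain ⟨v2, T2, t2, ht2, hr2, hI2, -⟩ := Prog.forEach_run (Γ := GS n K) KS.w
    (fun (v : Mem n K) => v.2.1) (fun v o => (v.1, o, v.2.2)) (fun _ _ => rfl) appSwitch
    (fun l v S => ∃ r', S = SS x u l r' ∧ appl τ l r' = appl τ w r ∧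
      v.1 = some (.inr (.inl τ)) ∧ v.2.2.2 = c)
    (c1 n K)
    (by
      rintro ℓ l ⟨v1, v2, v3, v4⟩ S ⟨r', rfl, h1, h2, h3⟩ -
      simp only at h2 h3
      subst h2 h3
      rw [SS_update_w]
      obtain ⟨q', t, ht, h⟩ := appSwitch_run τ ℓ v3 v4 x u l r'
      exact ⟨_, _, t, ht, h, ⟨_, rfl, h1, rfl, rfl⟩, rfl⟩)
    w (some (.inr (.inl τ)), p, q, c) (SS x u w r) rfl ⟨r, rfl, rfl, rfl, rfl⟩
  obtain ⟨r', rfl, h1, h2, h3⟩ := hI2
  obtain ⟨a1, a2, a3, a4⟩ := v2
  simp only at h2 h3
  subst h2 h3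
  have h4 : appl τ [] r' = r' := rfl
  rw [h4] at h1
  subst h1
  exact ⟨a3, t2, ht2, hr2⟩

/-- the letter in the letter register -/
def getL (v : Mem n K) : Option (Lt n) :=
  match v.1 with
  | some (.inl (some ℓ)) => some ℓ
  | some (.inr (.inr ℓ)) => some ℓ
  | _ => none

/-- a letter of the instance -/
def isInst (v : Mem n K) : Bool :=
  match v.1 with
  | some (.inl (some _)) => true
  | _ => false

/-- the marker -/
def isMark (v : Mem n K) : Bool :=
  match v.1 with
  | some (.inl none) => true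
  | _ => false

/-- an automorphism -/
def isTok (v : Mem n K) : Bool :=
  match v.1 with
  | some (.inr (.inl _)) => true
  | _ => false

/-- the part for a letter of the instance -/
noncomputable def bodyA : Prog (GS n K) (Mem n K) :=
  .ite (fun v => v.2.2.2.1) (.pushMap getL .w (fun c => [c])) (.pushMap getL .u (fun c => [c]))

/-- the part for the marker -/
noncomputable def bodyB : Prog (GS n K) (Mem n K) :=
  .load (fun v => (v.1, v.2.1, v.2.2.1, true, v.2.2.2.2))

/-- the part for an automorphism -/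
noncomputable def bodyC : Prog (GS n K) (Mem n K) :=
  .seq (.pop .r (fun v o => (v.1, v.2.1, o, v.2.2.2.1, v.2.2.2.2 && o.isNone))) appProg

/-- the part for a letter of the certificate -/
noncomputable def bodyD : Prog (GS n K) (Mem n K) :=
  .seq (.pop .r (fun v o => (v.1, v.2.1, o, v.2.2.2.1, v.2.2.2.2 && decide (o = getL v))))
    (.pushMap getL .w (fun c => [c]))

/-- body of the main loop -/
noncomputable def body : Prog (GS n K) (Mem n K) :=
  .ite isInst bodyA (.ite isMark bodyB (.ite isTok bodyC bodyD))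

/-- time for the body -/
noncomputable def bodyTime (n K N : ℕ) : ℕ := N * (c1 n K + 2) + 2 * Fintype.card (Lt n) + 10

theorem body_run (a : Sym n K) (l : List (Sym n K)) (p q : Option (Lt n)) (s : ASt n) (N : ℕ)
    (hN : s.W.length ≤ N) :
    ∃ p' q' t, t ≤ bodyTime n K N ∧
      Prog.Run body (some a, p, q, s.ph, s.ok) (SS l s.U s.W s.R)
        (some a, p', q', (astep s a).ph, (astep s a).ok)
        (SS l (astep s a).U (astep s a).W (astep s a).R) t := by
  have hN' : s.W.length * (c1 n K + 2) ≤ N * (c1 n K + 2) := Nat.mul_le_mul_right _ hN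
  obtain ⟨ph, ok, U, W, R⟩ := s
  unfold bodyTime
  rcases a with (_ | ℓ) | τ | ℓ
  · -- marker
    have h1 := Prog.Run.load (Γ := GS n K)
      (fun v : Mem n K => (v.1, v.2.1, v.2.2.1, true, v.2.2.2.2))
      (some (Sum.inl none), p, q, ph, ok) (SS l U W R)
    exact ⟨p, q, 1 + (1 + 1), by omega, Prog.Run.ite_false rfl (Prog.Run.ite_true rfl h1)⟩
  · -- a letter of the instance
    cases ph with
    | true =>
      obtain ⟨t, ht, hr⟩ := Prog.pushMap_run (Γ := GS n K) (getL (K := K)) KS.w (fun c => [c])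
        (v := (some (Sum.inl (some ℓ)), p, q, true, ok)) (a := ℓ) (SS l U W R) rfl
      rw [SS_update_w, SS_w] at hr
      have ht' : t ≤ Fintype.card (Lt n) + 1 + Fintype.card (Lt n) := by simpa using ht
      exact ⟨p, q, 1 + (1 + t), by omega, Prog.Run.ite_true rfl (Prog.Run.ite_true rfl hr)⟩
    | false =>
      obtain ⟨t, ht, hr⟩ := Prog.pushMap_run (Γ := GS n K) (getL (K := K)) KS.u (fun c => [c])
        (v := (some (Sum.inl (some ℓ)), p, q, false, ok)) (a := ℓ) (SS l U W R) rfl
      rw [SS_update_u, SS_u] at hr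
      have ht' : t ≤ Fintype.card (Lt n) + 1 + Fintype.card (Lt n) := by simpa using ht
      exact ⟨p, q, 1 + (1 + t), by omega, Prog.Run.ite_true rfl (Prog.Run.ite_false rfl hr)⟩
  · -- an automorphism
    have h1 := Prog.Run.pop (Γ := GS n K) KS.r
      (fun (v : Mem n K) o => (v.1, v.2.1, o, v.2.2.2.1, v.2.2.2.2 && o.isNone))
      (some (Sum.inr (Sum.inl τ)), p, q, ph, ok) (SS l U W R)
    rw [SS_update_r, SS_r] at h1
    obtain ⟨q', t, ht, hr⟩ := appProg_run τ p R.head? (ph, ok && R.head?.isNone) l U W R.tail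
    have h2 : W.length ≤ N := hN
    have h3 : W.length * (c1 n K + 2) ≤ N * (c1 n K + 2) := hN'
    exact ⟨none, q', 1 + (1 + (1 + (1 + t))), by omega,
      Prog.Run.ite_false rfl (Prog.Run.ite_false rfl (Prog.Run.ite_true rfl
        (Prog.Run.seq h1 hr)))⟩
  · -- a letter of the certificate
    have h1 := Prog.Run.pop (Γ := GS n K) KS.r
      (fun (v : Mem n K) o => (v.1, v.2.1, o, v.2.2.2.1, v.2.2.2.2 && decide (o = getL v)))
      (some (Sum.inr (Sum.inr ℓ)), p, q, ph, ok) (SS l U W R)
    rw [SS_update_r, SS_r] at h1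
    obtain ⟨t, ht, hr⟩ := Prog.pushMap_run (Γ := GS n K) (getL (K := K)) KS.w (fun c => [c])
        (v := (some (Sum.inr (Sum.inr ℓ)), p, R.head?, ph, ok && decide (R.head? = some ℓ)))
        (a := ℓ) (SS l U W R.tail) rfl
    rw [SS_update_w, SS_w] at hr
    have ht' : t ≤ Fintype.card (Lt n) + 1 + Fintype.card (Lt n) := by simpa using ht
    exact ⟨p, R.head?, 1 + (1 + (1 + (1 + t))), by omega,
      Prog.Run.ite_false rfl (Prog.Run.ite_false rfl (Prog.Run.ite_false rfl
        (Prog.Run.seq h1 hr)))⟩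

theorem astep_size (s : ASt n) (a : Sym n K) :
    (astep s a).W.length ≤ s.W.length + 1 ∧ (astep s a).U.length ≤ s.U.length + 1 := by
  obtain ⟨ph, ok, U, W, R⟩ := s
  rcases a with (_ | ℓ) | τ | ℓ
  · simp [astep]
  · cases ph <;> simp [astep]
  · simp [astep]
  · simp [astep]

theorem fold_size (l : List (Sym n K)) : ∀ s : ASt n,
    (l.foldl astep s).W.length ≤ s.W.length + l.length ∧
      (l.foldl astep s).U.length ≤ s.U.length + l.length := by
  induction l with
  | nil => intro s; simp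
  | cons a l ih =>
    intro s
    have h1 := ih (astep s a)
    have h2 := astep_size s a
    simp only [List.foldl_cons, List.length_cons]
    omega

/-- comparison of the stacks -/
noncomputable def cmpProg : Prog (GS n K) (Mem n K) :=
  .forEach .u (fun v => v.2.1) (fun v o => (v.1, o, v.2.2))
    (.pop .w (fun v o => (v.1, v.2.1, v.2.2.1, v.2.2.2.1, v.2.2.2.2 && decide (o = v.2.1))))

theorem cmpProg_run (a : Option (Sym n K)) (p q : Option (Lt n)) (ph ok : Bool)
    (x : List (Sym n K)) (u w r : List (Lt n)) :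
    ∃ t, t ≤ u.length * 3 + 2 ∧
      Prog.Run cmpProg (a, p, q, ph, ok) (SS x u w r)
      (a, none, q, ph, (cmpr ok u w).1) (SS x [] (cmpr ok u w).2 r) t := by
  obtain ⟨v2, T2, t2, ht2, hr2, hI2, -⟩ := Prog.forEach_run (Γ := GS n K) KS.u
    (fun (v : Mem n K) => v.2.1) (fun v o => (v.1, o, v.2.2)) (fun _ _ => rfl)
    (.pop .w (fun v o => (v.1, v.2.1, v.2.2.1, v.2.2.2.1, v.2.2.2.2 && decide (o = v.2.1))))
    (fun l v S => ∃ w', S = SS x l w' r ∧ cmpr v.2.2.2.2 l w' = cmpr ok u w ∧
      v.1 = a ∧ v.2.2.1 = q ∧ v.2.2.2.1 = ph)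
    1
    (by
      rintro ℓ l ⟨v1, v2, v3, v4, v5⟩ S ⟨w', rfl, h1, h2, h3, h4⟩ -
      simp only at h1 h2 h3 h4
      subst h2 h3 h4
      rw [SS_update_u]
      have h5 := Prog.Run.pop (Γ := GS n K) KS.w
        (fun (v : Mem n K) o => (v.1, v.2.1, v.2.2.1, v.2.2.2.1, v.2.2.2.2 && decide (o = v.2.1)))
        (v1, some ℓ, v3, v4, v5) (SS x l w' r)
      rw [SS_update_w, SS_w] at h5
      exact ⟨_, _, 1, le_rfl, h5, ⟨_, rfl, h1, rfl, rfl, rfl⟩, rfl⟩)
    u (a, p, q, ph, ok) (SS x u w r) rfl ⟨w, rfl, rfl, rfl, rfl, rfl⟩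
  obtain ⟨w', rfl, h1, h2, h3, h4⟩ := hI2
  obtain ⟨a1, a2, a3, a4, a5⟩ := v2
  simp only at h1 h2 h3 h4
  subst h2 h3 h4
  have h5 : cmpr a5 [] w' = (a5, w') := rfl
  rw [h5] at h1
  rw [← h1]
  exact ⟨t2, ht2, hr2⟩

/-- the final test -/
noncomputable def finProg : Prog (GS n K) (Mem n K) :=
  .seq cmpProg
    (.seq (.pop .w (fun v o => (v.1, v.2.1, v.2.2.1, v.2.2.2.1, v.2.2.2.2 && o.isNone)))
      (.pop .r (fun v o => (v.1, v.2.1, v.2.2.1, v.2.2.2.1, v.2.2.2.2 && o.isNone))))

theorem finProg_run (a : Option (Sym n K)) (p q : Option (Lt n)) (x : List (Sym n K))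
    (s : ASt n) :
    ∃ v' S' t, t ≤ s.U.length * 3 + 4 ∧ v'.2.2.2.2 = afin s ∧
      Prog.Run finProg (a, p, q, s.ph, s.ok) (SS x s.U s.W s.R) v' S' t := by
  obtain ⟨t, ht, hr⟩ := cmpProg_run a p q s.ph s.ok x s.U s.W s.R
  have h1 := Prog.Run.pop (Γ := GS n K) KS.w
    (fun (v : Mem n K) o => (v.1, v.2.1, v.2.2.1, v.2.2.2.1, v.2.2.2.2 && o.isNone))
    (a, none, q, s.ph, (cmpr s.ok s.U s.W).1) (SS x [] (cmpr s.ok s.U s.W).2 s.R)
  rw [SS_update_w, SS_w] at h1
  have h2 := Prog.Run.pop (Γ := GS n K) KS.r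
    (fun (v : Mem n K) o => (v.1, v.2.1, v.2.2.1, v.2.2.2.1, v.2.2.2.2 && o.isNone))
    (a, none, q, s.ph, (cmpr s.ok s.U s.W).1 && (cmpr s.ok s.U s.W).2.head?.isNone)
    (SS x [] (cmpr s.ok s.U s.W).2.tail s.R)
  rw [SS_update_r, SS_r] at h2
  exact ⟨_, _, t + (1 + 1), by omega, rfl, Prog.Run.seq hr (Prog.Run.seq h1 h2)⟩

/-- the verifier program -/
noncomputable def vprog : Prog (GS n K) (Mem n K) :=
  .seq (.forEach .inp (fun v => v.1) (fun v o => (o, v.2)) body) finProg

theorem vprog_run (x : List (Sym n K)) :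
    ∃ v' S' t, t ≤ x.length * (x.length * (c1 n K + 2) + (2 * Fintype.card (Lt n) + 15)) + 6 ∧
      v'.2.2.2.2 = averify x ∧
      Prog.Run vprog (none, none, none, false, true) (SS x [] [] []) v' S' t := by
  obtain ⟨v2, T2, t2, ht2, hr2, hI2, -⟩ := Prog.forEach_run (Γ := GS n K) KS.inp
    (fun (v : Mem n K) => v.1) (fun v o => (o, v.2)) (fun _ _ => rfl) body
    (fun l v S => ∃ d, d ++ l = x ∧
      v.2.2.2 = ((d.foldl astep (ainit n)).ph, (d.foldl astep (ainit n)).ok) ∧
      S = SS l (d.foldl astep (ainit n)).U (d.foldl astep (ainit n)).W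
        (d.foldl astep (ainit n)).R)
    (bodyTime n K x.length)
    (by
      rintro a l ⟨v1, v2, v3, v4⟩ S ⟨d, hd, hv, rfl⟩ -
      simp only at hv
      subst hv
      rw [SS_update_inp]
      have hsz := (fold_size d (ainit n)).1
      have h0 : (ainit n).W.length = 0 := rfl
      have hlen : d.length + (l.length + 1) = x.length := by
        have := congrArg List.length hd
        simpa using this
      obtain ⟨p', q', t, ht, hr⟩ := body_run a l v2 v3 (d.foldl astep (ainit n)) x.length
        (by omega)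
      refine ⟨_, _, t, ht, hr, ⟨d ++ [a], by simpa using hd, ?_, ?_⟩, rfl⟩
      · simp [List.foldl_append]
      · simp [List.foldl_append])
    x (none, none, none, false, true) (SS x [] [] []) rfl ⟨[], rfl, rfl, rfl⟩
  obtain ⟨d, hd, hv, rfl⟩ := hI2
  rw [List.append_nil] at hd
  subst hd
  obtain ⟨a1, a2, a3, a4⟩ := v2
  simp only at hv
  subst hv
  obtain ⟨v', S', t, ht, hv', hr⟩ := finProg_run (none : Option (Sym n K)) a2 a3 []
    (d.foldl astep (ainit n))
  refine ⟨v', S', t2 + t, ?_, hv', Prog.Run.seq hr2 hr⟩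
  have hsz := (fold_size d (ainit n)).2
  have h0 : (ainit n).U.length = 0 := rfl
  unfold bodyTime at ht2
  nlinarith

theorem vprog_run' (x : List (Sym n K)) :
    ∃ t v' S', t ≤ x.length * (x.length * (c1 n K + 2) + (2 * Fintype.card (Lt n) + 15)) + 6 ∧
      v'.2.2.2.2 = averify x ∧
      Prog.Run vprog (none, none, none, false, true)
        (update (fun _ => [] : ∀ k, List (GS n K k)) KS.inp
          (List.map (⇑(Equiv.refl (Sym n K)).symm) x)) v' S' t := by
  obtain ⟨v', S', t, ht, hv, hr⟩ := vprog_run x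
  refine ⟨t, v', S', ht, hv, ?_⟩
  have h1 : List.map (⇑(Equiv.refl (Sym n K)).symm) x = x := List.map_id x
  rw [h1, SS_zero]
  exact hr

/-- the verifier is computable in polynomial time -/
noncomputable def verifyComputable (n K : ℕ) :
    Turing.TM2ComputableInPolyTime ((whiteheadProblem n).encPair (B := Tok n K ⊕ Lt n))
      Computability.encodeBool (verify n K) :=
  letI : Fintype (Mem n K) := inferInstance
  letI : Fintype (GS n K KS.inp) := inferInstanceAs (Fintype (Option (Lt n) ⊕ (Tok n K ⊕ Lt n)))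
  Prog.decidable (Γ := GS n K) ((whiteheadProblem n).encPair (B := Tok n K ⊕ Lt n)) (verify n K)
    (none, none, none, false, true) KS.inp KS.out
    vprog (Equiv.refl (Sym n K)) (Equiv.refl Bool)
    (fun v => v.2.2.2.2)
    (Polynomial.X * (Polynomial.X * ((c1 n K + 2 : ℕ) : Polynomial ℕ) +
        ((2 * Fintype.card (Lt n) + 15 : ℕ) : Polynomial ℕ)) + 6)
    (by
      intro a
      obtain ⟨t, v', S', ht, hv, hr⟩ := vprog_run'
        ((whiteheadProblem n).encPair (B := Tok n K ⊕ Lt n) a : List (Sym n K))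
      refine ⟨t, v', S', ?_, hv, hr⟩
      simp only [Polynomial.eval_add, Polynomial.eval_mul, Polynomial.eval_X,
        Polynomial.eval_natCast, Polynomial.eval_ofNat, Nat.cast_id]
      exact ht)

end NPV

/-- I11: automorphic images in free groups have short certificates, checked in polynomial
time. -/
theorem npStatement : NPStatement := fun n K P h =>
  ⟨NPV.Tok n K ⊕ Lt n, inferInstance, NPV.verify n K, P * (P + 1),
    ⟨NPV.verifyComputable n K⟩, fun x => NPV.verify_key n K P h x⟩

end Pool.Agent.Helper35_WH
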