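import Pool.Agent.Helper35_WH.Stmt2

/-!
# SURF: the chord systems of the vertical and of the horizontal strips
-/

namespace Pool.Agent.Helper35_WH

open FreeGroup

namespace SurfAux

theorem orb_const {K α : Type} {f g : K → K} {U : K → α} (hf : ∀ x, U (f x) = U x)
    (hg : ∀ x, U (g x) = U x) {k k' : K} (h : Orb f g k k') : U k' = U k :=
  h (fun x => U x = U k) (fun x hx => (hf x).trans hx) (fun x hx => (hg x).trans hx) rfl

theorem orb_swap {K : Type} {f g : K → K} {k k' : K} (h : Orb f g k k') : Orb g f k k' :=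
  fun P h1 h2 h3 => h P h2 h1 h3

/-- the set of ends of boundary sides of the transposed surface -/
def bdryT (Q : Quad) : {x : Q.K × Bool // Q.Bdry x} ≃ {x : Q.T.K × Bool // Q.T.Bdry x} where
  toFun x := ⟨(x.1.1, !x.1.2), by
    obtain ⟨⟨κ, b⟩, h⟩ := x
    unfold Quad.Bdry at h ⊢
    cases b
    · simpa [Quad.T] using h
    · simpa [Quad.T] using h⟩
  invFun x := ⟨(x.1.1, !x.1.2), by
    obtain ⟨⟨κ, b⟩, h⟩ := x
    unfold Quad.Bdry at h ⊢
    cases b
    · simpa [Quad.T] using h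
    · simpa [Quad.T] using h⟩
  left_inv x := by
    obtain ⟨⟨κ, b⟩, h⟩ := x
    simp
  right_inv x := by
    obtain ⟨⟨κ, b⟩, h⟩ := x
    simp

theorem bdryT_fst {Q : Quad} (x : {x : Q.K × Bool // Q.Bdry x}) : (bdryT Q x).1.1 = x.1.1 := rfl

theorem bdryT_snd {Q : Quad} (x : {x : Q.K × Bool // Q.Bdry x}) : (bdryT Q x).1.2 = !x.1.2 := rfl

/-- transposition of the rim data -/
def rimT {Q : Quad} (D : Q.RimData) : Q.T.RimData where
  R := D.R
  e := D.e.trans (bdryT Q)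
  AV := D.AH
  AH := D.AV
  φ_false x hx := by
    have h1 : (D.e x).1.2 = true := by
      simpa [bdryT_snd] using hx
    have h2 := D.φ_true x h1
    refine Prod.ext ?_ ?_
    · change (D.e (D.R.φ x)).1.1 = Q.fc (D.e x).1.1
      rw [h2]
    · change (!(D.e (D.R.φ x)).1.2) = false
      rw [h2]
      rfl
  φ_true x hx := by
    have h1 : (D.e x).1.2 = false := by
      simpa [bdryT_snd] using hx
    have h2 := D.φ_false x h1
    refine Prod.ext ?_ ?_
    · change (D.e (D.R.φ x)).1.1 = Q.fa (D.e x).1.1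
      rw [h2]
    · change (!(D.e (D.R.φ x)).1.2) = true
      rw [h2]
      rfl
  σ_orb x := orb_swap (D.σ_orb x)
  σ_uni x y h := D.σ_uni x y (orb_swap h)
  AV_false x hx := by
    have h1 : (D.e x).1.2 = true := by
      simpa [bdryT_snd] using hx
    obtain ⟨h2, h3⟩ := D.AH_true x h1
    refine ⟨?_, h3⟩
    change (!(D.e (D.AH.A x)).1.2) = false
    rw [h2]
    rfl
  AV_uni x y hx hy h := D.AH_uni x y (by simpa [bdryT_snd] using hx)
    (by simpa [bdryT_snd] using hy) h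
  AV_true x hx := D.AH_false x (by simpa [bdryT_snd] using hx)
  AH_true x hx := by
    have h1 : (D.e x).1.2 = false := by
      simpa [bdryT_snd] using hx
    obtain ⟨h2, h3⟩ := D.AV_false x h1
    refine ⟨?_, h3⟩
    change (!(D.e (D.AV.A x)).1.2) = true
    rw [h2]
    rfl
  AH_uni x y hx hy h := D.AV_uni x y (by simpa [bdryT_snd] using hx)
    (by simpa [bdryT_snd] using hy) h
  AH_false x hx := D.AV_true x (by simpa [bdryT_snd] using hx)

/-- functions on the rim which are invariant under `AV` extend to the surface -/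
theorem extend_all (h2 : ExtendStatement) {Q : Quad} (D : Q.RimData) (hs : Q.Strips)
    (hf : Q.Forest) (u : D.R.E → Bool) (hu : D.R.Inv u) (hA : ∀ x, u (D.AV.A x) = u x) :
    ∃ U : Q.K → Bool, (∀ κ, U (Q.nu κ) = U κ) ∧ (∀ κ, U (Q.eta κ) = U κ) ∧
      (∀ κ, U (Q.fc κ) = U κ) ∧ (∀ κ, U (Q.fa κ) = U κ) ∧ ∀ x, U (D.e x).1.1 = u x := by
  obtain ⟨U, h3, h4, h5, h6⟩ := h2 Q D hs hf Bool u hu.1 hA
  refine ⟨U, h3, h4, h5, ?_, h6⟩
  intro κ
  obtain ⟨κ', ho, hκ'⟩ := hs κ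
  have e1 : U κ' = U κ := orb_const h3 h5 ho
  have e2 : U (Q.fa κ') = U (Q.fa κ) :=
    orb_const (U := fun x => U (Q.fa x)) (fun x => by rw [← Q.nufa, h3])
      (fun x => by rw [Q.fafc, h5]) ho
  have hb : Q.Bdry (κ', false) := by
    simp [Quad.Bdry, hκ']
  obtain ⟨x, hx⟩ := D.e.surjective ⟨(κ', false), hb⟩
  have hx1 : (D.e x).1 = (κ', false) := by rw [hx]
  have e3 : U κ' = u x := by
    rw [← h6 x, hx1]
  have e4 : U (Q.fa κ') = u (D.R.φ x) := by
    have h7 := D.φ_false x (by rw [hx1])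
    rw [← h6 (D.R.φ x), h7, hx1]
  rw [← e2, e4, hu.2, ← e3, e1]

theorem inv_one (h2 : ExtendStatement) {Q : Quad} (D : Q.RimData) (hs : Q.Strips)
    (hf : Q.Forest) (u : D.R.E → Bool) (hu : D.R.Inv u) (hA : ∀ x, u (D.AV.A x) = u x) :
    ∀ x, u (D.AH.A x) = u x := by
  obtain ⟨U, h3, h4, h5, h6, h7⟩ := extend_all h2 D hs hf u hu hA
  intro x
  cases hx : (D.e x).1.2
  · rw [D.AH_false x hx]
    exact hu.2 x
  · rw [← h7, ← h7]
    exact orb_const h4 h6 (D.AH_true x hx).2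

theorem rep_T {Q : Quad} {M : Type} [Group M] {vV vH : Q.K → M} (h : Q.Rep vV vH) :
    Q.T.Rep (M := M) vH vV where
  fcV := h.faH
  etaV := h.nuH
  faH := h.fcV
  nuH := h.etaV
  flat κ := (h.flat κ).symm

section Cut

variable {Q : Quad} {M : Type} [Group M] (U : Q.K → Bool)

/-- restriction to a union of components -/
def cut (v : Q.K → M) (κ : Q.K) : M := if U κ then v κ else 1

theorem rep_cut (h1 : ∀ κ, U (Q.nu κ) = U κ) (h2 : ∀ κ, U (Q.eta κ) = U κ)
    (h3 : ∀ κ, U (Q.fc κ) = U κ) (h4 : ∀ κ, U (Q.fa κ) = U κ) {vV vH : Q.K → M}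
    (h : Q.Rep vV vH) : Q.Rep (cut U vV) (cut U vH) where
  fcV κ := by
    unfold cut
    rw [h3]
    split_ifs
    · exact h.fcV κ
    · simp
  etaV κ := by
    unfold cut
    rw [h2]
    split_ifs
    · exact h.etaV κ
    · rfl
  faH κ := by
    unfold cut
    rw [h4]
    split_ifs
    · exact h.faH κ
    · simp
  nuH κ := by
    unfold cut
    rw [h1]
    split_ifs
    · exact h.nuH κ
    · rfl
  flat κ := by
    unfold cut
    rw [h4, h3]
    split_ifs
    · exact h.flat κ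
    · rfl

theorem pot_cut (h1 : ∀ κ, U (Q.nu κ) = U κ) (h2 : ∀ κ, U (Q.eta κ) = U κ)
    (h3 : ∀ κ, U (Q.fc κ) = U κ) {vV p : Q.K → M} (h : Q.Pot vV p) :
    Q.Pot (cut U vV) (cut U p) where
  nu κ := by
    unfold cut
    rw [h1]
    split_ifs
    · exact h.nu κ
    · rfl
  eta κ := by
    unfold cut
    rw [h2]
    split_ifs
    · exact h.eta κ
    · rfl
  fc κ := by
    unfold cut
    rw [h3]
    split_ifs
    · exact h.fc κ
    · simp

end Cut

/-- all the data constructed from a solution for the vertical chords -/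
theorem construct (h2 : ExtendStatement) (h3 : PotExistsStatement) (h4 : RecStatement)
    {Q : Quad} (D : Q.RimData) (hs : Q.Strips) (hf : Q.Forest) (hf' : Q.T.Forest)
    (P : D.R.E → Bool) (hP : D.R.Inv P) (hPA : ∀ e, P (D.AV.A e) = P e) (M : Type) [Group M]
    (b : D.R.E → M) (hb : D.R.Bd b) (hbP : ∀ e, P e = false → b e = 1)
    (a : D.R.E → M) (ha : Sol D.AV b a) (haP : ∀ e, P e = false → a e = 1) :
    ∃ (vV vH p p' : Q.K → M) (a' : D.R.E → M), Q.Rep vV vH ∧ Q.Pot vV p ∧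
      (∀ x, D.bv vV vH x = b x) ∧
      (∀ x, (D.e x).1.2 = false → a x = (p (D.e x).1.1)⁻¹ * p (D.e (D.AV.A x)).1.1) ∧
      Q.T.Pot (M := M) vH p' ∧ Sol D.AH b a' ∧ (∀ e, P e = false → a' e = 1) ∧
      ∀ x, (D.e x).1.2 = true → a' x = (p' (D.e x).1.1)⁻¹ * p' (D.e (D.AH.A x)).1.1 := by
  obtain ⟨vV, vH, p, hR, hp, hbv, hap⟩ := (h4 Q D M).2 hs b a hb ha
  obtain ⟨U, u1, u2, u3, u4, u5⟩ := extend_all h2 D hs hf P hP hPA
  have hPH := inv_one h2 D hs hf P hP hPA
  have hR' := rep_cut U u1 u2 u3 u4 hR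
  have hp' := pot_cut U u1 u2 u3 hp
  have hbv' : ∀ x, D.bv (cut U vV) (cut U vH) x = b x := by
    intro x
    have e1 := hbv x
    unfold Quad.RimData.bv at e1 ⊢
    unfold cut
    rw [u5]
    cases hx : P x
    · simp [hbP x hx]
    · simpa using e1
  have hR'T := rep_T hR'
  obtain ⟨q, hq⟩ := h3 Q.T hf' M (cut U vH) (cut U vV) hR'T
  have hqc : Q.T.Pot (M := M) (cut U vH) (cut U q) := by
    have h5 := pot_cut (Q := Q.T) U u2 u1 u4 hq
    have h6 : cut (Q := Q.T) U (cut U vH) = cut U vH := by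
      funext κ
      unfold cut
      split_ifs <;> rfl
    rw [h6] at h5
    exact h5
  have hsol := ((h4 Q.T (rimT D) M).1 (cut U vH) (cut U vV) hR'T).2 (cut U q) hqc
  have hbvT : (rimT D).bv (cut U vH) (cut U vV) = b := by
    funext x
    rw [← hbv' x]
    unfold Quad.RimData.bv
    change (if (!(D.e x).1.2) = true then cut U vH (D.e x).1.1 else cut U vV (D.e x).1.1) = _
    cases (D.e x).1.2 <;> rfl
  rw [hbvT] at hsol
  refine ⟨cut U vV, cut U vH, cut U p, cut U q, _, hR', hp', hbv', ?_, hqc, hsol, ?_, ?_⟩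
  · intro x hx
    unfold cut
    rw [u5, u5, hPA]
    cases hPx : P x
    · simp [haP x hPx]
    · simpa using hap x hx
  · intro x hx
    change (if (!(D.e x).1.2) = true then b x else
      (cut U q (D.e x).1.1)⁻¹ * cut U q (D.e (D.AH.A x)).1.1) = 1
    unfold cut
    rw [u5, u5, hPH, hx, hbP x hx]
    simp
  · intro x hx
    change (if (!(D.e x).1.2) = true then b x else
      (cut U q (D.e x).1.1)⁻¹ * cut U q (D.e (D.AH.A x)).1.1) = _
    rw [hx]
    rfl

theorem embed (h2 : ExtendStatement) (h3 : PotExistsStatement) (h4 : RecStatement)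
    (h5 : GaugeStatement) {Q : Quad} (D : Q.RimData) (hs : Q.Strips) (hf : Q.Forest)
    (hs' : Q.T.Strips) (hf' : Q.T.Forest)
    (P : D.R.E → Bool) (hP : D.R.Inv P) (hPA : ∀ e, P (D.AV.A e) = P e) (M : Type) [Group M]
    (b : D.R.E → M) (hb : D.R.Bd b) (hbP : ∀ e, P e = false → b e = 1) :
    Nonempty ({a : D.R.E → M // Sol D.AV b a ∧ ∀ e, P e = false → a e = 1} ↪
      {a : D.R.E → M // Sol D.AH b a ∧ ∀ e, P e = false → a e = 1}) := by
  choose vV vH p p' a' c1 c2 c3 c4 c5 c6 c7 c8 using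
    fun a : {a : D.R.E → M // Sol D.AV b a ∧ ∀ e, P e = false → a e = 1} =>
      construct h2 h3 h4 D hs hf hf' P hP hPA M b hb hbP a.1 a.2.1 a.2.2
  refine ⟨⟨fun a => ⟨a' a, c6 a, c7 a⟩, fun a₁ a₂ h => ?_⟩⟩
  have haa : a' a₁ = a' a₂ := congrArg Subtype.val h
  -- gauge transformation for the transposed surface
  obtain ⟨γ, g1, g2, g3, g4, g5⟩ := h5 Q.T (rimT D) hs' hf' M (vH a₁) (vV a₁) (p' a₁) (vH a₂)
    (vV a₂) (p' a₂) (rep_T (c1 a₁)) (rep_T (c1 a₂)) (c5 a₁) (c5 a₂)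
    (by
      intro x
      have e1 := c3 a₁ x
      have e2 := c3 a₂ x
      unfold Quad.RimData.bv at e1 e2 ⊢
      change (if (!(D.e x).1.2) = true then vH a₁ (D.e x).1.1 else vV a₁ (D.e x).1.1) =
        (if (!(D.e x).1.2) = true then vH a₂ (D.e x).1.1 else vV a₂ (D.e x).1.1)
      rw [← e2] at e1
      cases hx : (D.e x).1.2
      · rw [hx] at e1
        exact e1
      · rw [hx] at e1
        exact e1)
    (by
      intro x hx
      have hx' : (D.e x).1.2 = true := by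
        have : (!(D.e x).1.2) = false := hx
        simpa using this
      have e1 := c8 a₁ x hx'
      have e2 := c8 a₂ x hx'
      change (p' a₁ (D.e x).1.1)⁻¹ * p' a₁ (D.e (D.AH.A x)).1.1 =
        (p' a₂ (D.e x).1.1)⁻¹ * p' a₂ (D.e (D.AH.A x)).1.1
      rw [← e1, ← e2, haa])
  -- g1 : γ invariant under eta, g2 : under nu
  have g1' : ∀ κ, γ (Q.eta κ) = γ κ := g1
  have g2' : ∀ κ, γ (Q.nu κ) = γ κ := g2
  have g3' : ∀ x, γ (D.e x).1.1 = 1 := g3
  have g5' : ∀ κ, vV a₂ κ = (γ κ)⁻¹ * vV a₁ κ * γ (Q.fc κ) := g5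
  -- the quotient of the potentials
  have hr : ∀ κ, p a₂ (Q.fc κ) * (p a₁ (Q.fc κ) * γ (Q.fc κ))⁻¹ =
      p a₂ κ * (p a₁ κ * γ κ)⁻¹ := by
    intro κ
    have e1 := (c2 a₁).fc κ
    have e2 := (c2 a₂).fc κ
    have e3 := g5' κ
    have e4 : p a₂ (Q.fc κ) = p a₂ κ * vV a₂ κ := by rw [e2]; group
    have e5 : p a₁ (Q.fc κ) = p a₁ κ * vV a₁ κ := by rw [e1]; group
    rw [e4, e5, e3]
    group
  apply Subtype.ext
  funext x
  cases hx : (D.e x).1.2
  · rw [c4 a₁ x hx, c4 a₂ x hx]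
    have ho := (D.AV_false x hx).2
    have e1 : p a₂ (D.e (D.AV.A x)).1.1 * (p a₁ (D.e (D.AV.A x)).1.1 * γ (D.e (D.AV.A x)).1.1)⁻¹ =
        p a₂ (D.e x).1.1 * (p a₁ (D.e x).1.1 * γ (D.e x).1.1)⁻¹ :=
      orb_const (U := fun κ => p a₂ κ * (p a₁ κ * γ κ)⁻¹)
        (fun κ => by
          rw [(c2 a₂).nu, (c2 a₁).nu, g2']) hr ho
    rw [g3', g3', mul_one, mul_one] at e1
    have e2 : p a₂ (D.e (D.AV.A x)).1.1 =
        p a₂ (D.e x).1.1 * (p a₁ (D.e x).1.1)⁻¹ * p a₁ (D.e (D.AV.A x)).1.1 := by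
      rw [← e1]
      group
    rw [e2]
    group
  · have hA := D.AV_true x hx
    rw [a₁.2.1.2.1 x hA, a₂.2.1.2.1 x hA]

end SurfAux

open SurfAux

theorem surf (h2 : ExtendStatement) (h3 : PotExistsStatement) (h4 : RecStatement)
    (h5 : GaugeStatement) : SurfStatement := by
  intro Q D hs hf hs' hf'
  have hiff : InvIff D.AV D.AH := fun f hfi => ⟨fun h => inv_one h2 D hs hf f hfi h, fun h =>
    inv_one h2 (rimT D) hs' hf' f hfi h⟩
  refine ⟨hiff, ?_⟩
  intro P hP hPA M _ b hb hbP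
  obtain ⟨i⟩ := embed h2 h3 h4 h5 D hs hf hs' hf' P hP hPA M b hb hbP
  obtain ⟨j⟩ := embed h2 h3 h4 h5 (rimT D) hs' hf' hs hf P hP ((hiff P hP).1 hPA) M b hb hbP
  exact Function.Embedding.antisymm i j

end Pool.Agent.Helper35_WH
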