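import Pool.Agent.Helper35_WH.Stmt1

/-!
# SURJ: labellings which determine homomorphism and gauge uniquely
-/

namespace Pool.Agent.Helper35_WH

open FreeGroup

theorem IsPath.append {V E : Type} {s t : E → V} {u v w : V} {L L' : List (E × Bool)}
    (h : IsPath s t u L v) (h' : IsPath s t v L' w) : IsPath s t u (L ++ L') w := by
  induction L generalizing u with
  | nil =>
    have : u = v := h
    subst this
    exact h'
  | cons x L ih =>
    obtain ⟨e, b⟩ := x
    obtain ⟨h1, h2⟩ := h
    exact ⟨h1, ih h2⟩

theorem IsPath.rev {V E : Type} {s t : E → V} {u v : V} {L : List (E × Bool)}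
    (h : IsPath s t u L v) : IsPath s t v (L.reverse.map inv) u := by
  induction L generalizing u with
  | nil =>
    have : u = v := h
    subst this
    exact rfl
  | cons x L ih =>
    obtain ⟨e, b⟩ := x
    obtain ⟨h1, h2⟩ := h
    rw [List.reverse_cons, List.map_append]
    refine (ih h2).append ?_
    cases b
    · exact ⟨rfl, h1.symm⟩
    · exact ⟨rfl, h1.symm⟩

/-- the label of a list of directed edges -/
def lbl {E H : Type} [Group H] (ρ : E → H) (L : List (E × Bool)) : H :=
  (L.map fun x => if x.2 then ρ x.1 else (ρ x.1)⁻¹).prod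

theorem lbl_append {E H : Type} [Group H] (ρ : E → H) (L L' : List (E × Bool)) :
    lbl ρ (L ++ L') = lbl ρ L * lbl ρ L' := by
  simp [lbl]

theorem lbl_rev {E H : Type} [Group H] (ρ : E → H) (L : List (E × Bool)) :
    lbl ρ (L.reverse.map inv) = (lbl ρ L)⁻¹ := by
  induction L with
  | nil => simp [lbl]
  | cons x L ih =>
    rw [List.reverse_cons, List.map_append, lbl_append, ih]
    obtain ⟨e, b⟩ := x
    cases b <;> simp [lbl, inv]

theorem surj : SurjStatement := by
  classical
  intro V E H _ s t ρ o huniq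
  -- everything is reachable
  have hreach : ∀ u, ∃ L, IsPath s t o L u := by
    intro u
    set q : V → Multiplicative (ZMod 2) := fun v =>
      if ∃ L, IsPath s t o L v then 1 else Multiplicative.ofAdd 1 with hq
    have hq0 : q o = 1 := by
      simp only [hq]
      rw [if_pos ⟨[], rfl⟩]
    have hiff : ∀ e, q (s e) = q (t e) := by
      intro e
      have : (∃ L, IsPath s t o L (s e)) ↔ ∃ L, IsPath s t o L (t e) := by
        constructor
        · rintro ⟨L, hL⟩
          exact ⟨L ++ [(e, true)], hL.append ⟨rfl, rfl⟩⟩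
        · rintro ⟨L, hL⟩
          exact ⟨L ++ [(e, false)], hL.append ⟨rfl, rfl⟩⟩
      simp only [hq, this]
    have h1 := huniq (Multiplicative (ZMod 2)) (1, q) (1, fun _ => 1) hq0 rfl (by
      intro e
      simp [hiff e])
    have h2 : q u = 1 := by
      have := congrArg (fun x => x.2 u) h1
      simpa using this
    by_contra hcon
    simp only [hq] at h2
    rw [if_neg hcon] at h2
    have h3 : (1 : ZMod 2) = 0 := Multiplicative.ofAdd.injective h2
    exact one_ne_zero h3
  refine ⟨hreach, ?_⟩
  -- the subgroup of labels of closed paths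
  let S : Subgroup H :=
    { carrier := {h | ∃ L, IsPath s t o L o ∧ lbl ρ L = h}
      mul_mem' := by
        rintro _ _ ⟨L, hL, rfl⟩ ⟨L', hL', rfl⟩
        exact ⟨L ++ L', hL.append hL', lbl_append ρ L L'⟩
      one_mem' := ⟨[], rfl, by simp [lbl]⟩
      inv_mem' := by
        rintro _ ⟨L, hL, rfl⟩
        exact ⟨_, hL.rev, lbl_rev ρ L⟩ }
  suffices hS : S = ⊤ by
    intro h
    have : h ∈ S := hS ▸ Subgroup.mem_top h
    exact this
  by_contra hne
  -- two homomorphisms which agree on `S`
  obtain ⟨M, hM, g, g', hgS, hgne⟩ : ∃ (M : Type) (_ : Group M) (g g' : H →* M),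
      (∀ x ∈ S, g x = g' x) ∧ g ≠ g' := by
    have hnotepi : ¬ CategoryTheory.Epi (GrpCat.ofHom S.subtype) := by
      rw [GrpCat.epi_iff_surjective]
      intro hs
      apply hne
      rw [eq_top_iff]
      intro x _
      obtain ⟨y, hy⟩ := hs x
      have : (y : H) = x := hy
      rw [← this]
      exact y.2
    by_contra hcon
    push Not at hcon
    apply hnotepi
    constructor
    intro Z a b hab
    apply GrpCat.hom_ext
    apply hcon Z inferInstance a.hom b.hom
    intro x hx
    have := congrArg (fun f => f.hom ⟨x, hx⟩) hab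
    exact this
  choose c hc using hreach
  set p : V → M := fun v => (g' (lbl ρ (c v)))⁻¹ * g (lbl ρ (c v)) with hp
  have hp0 : p o = 1 := by
    have : lbl ρ (c o) ∈ S := ⟨c o, hc o, rfl⟩
    simp only [hp]
    rw [hgS _ this, inv_mul_cancel]
  have h1 := huniq M (g', p) (g, fun _ => 1) hp0 rfl (by
    intro e
    have h2 : lbl ρ (c (s e)) * ρ e * (lbl ρ (c (t e)))⁻¹ ∈ S := by
      refine ⟨c (s e) ++ [(e, true)] ++ (c (t e)).reverse.map inv, ?_, ?_⟩
      · have h5 : IsPath s t (s e) [(e, true)] (t e) := ⟨rfl, rfl⟩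
        exact ((hc (s e)).append h5).append (hc (t e)).rev
      · rw [lbl_append, lbl_append, lbl_rev]
        simp [lbl]
    have h3 := hgS _ h2
    rw [_root_.map_mul, _root_.map_mul, _root_.map_mul, _root_.map_mul, _root_.map_inv,
      _root_.map_inv] at h3
    simp only [hp, inv_one, one_mul, mul_one]
    have h4 : g' (ρ e) = (g' (lbl ρ (c (s e))))⁻¹ *
        (g (lbl ρ (c (s e))) * g (ρ e) * (g (lbl ρ (c (t e))))⁻¹) * g' (lbl ρ (c (t e))) := by
      rw [h3]
      group
    rw [h4]
    group)
  exact hgne (congrArg Prod.fst h1).symm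

end Pool.Agent.Helper35_WH
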