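import Pool.Agent.Helper35_WH.Stmt2

/-!
# TRIV, FCARD, POT: trivialisation over forests
-/

namespace Pool.Agent.Helper35_WH

open FreeGroup

/-- correcting a potential by a colouring -/
theorem pot_fix {M : Type} [Group M] {V : Type} (p : V → M) (c : V → Bool) (u w : V)
    (hc : c u ≠ c w) (x : M) :
    ∃ p' : V → M, (∀ a b, c a = c b → (p' a)⁻¹ * p' b = (p a)⁻¹ * p b) ∧
      (p' u)⁻¹ * p' w = x ∧ ∀ a b, c a = c b → p a = p b → p' a = p' b := by
  refine ⟨fun v => if c v = c u then p v else p u * x * (p w)⁻¹ * p v, ?_, ?_, ?_⟩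
  · intro a b hab
    by_cases h : c a = c u
    · have h' : c b = c u := hab ▸ h
      simp only [h, h', if_true]
    · have h' : ¬ c b = c u := hab ▸ h
      simp only [h, h', if_false]
      group
  · have h' : ¬ c w = c u := fun h => hc h.symm
    simp only [if_true, h', if_false]
    group
  · intro a b hab hp
    simp only [hab, hp]

theorem triv : TrivStatement := by
  intro V E _ _ s t hc M _ μ
  have key : ∀ F : Finset E, ∃ p : V → M, ∀ e ∈ F, μ e = (p (s e))⁻¹ * p (t e) := by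
    intro F
    induction F using Finset.induction_on with
    | empty => exact ⟨fun _ => 1, by simp⟩
    | insert e₀ F he₀ ih =>
      obtain ⟨p, hp⟩ := ih
      obtain ⟨c, hc0⟩ := hc e₀
      obtain ⟨p', h1, h2, -⟩ := pot_fix p c (s e₀) (t e₀) ((hc0 e₀).2 rfl) (μ e₀)
      refine ⟨p', fun e he => ?_⟩
      rw [Finset.mem_insert] at he
      rcases he with rfl | he
      · exact h2.symm
      · have hne : e ≠ e₀ := fun h => he₀ (h ▸ he)
        have h3 : c (s e) = c (t e) := by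
          by_contra h
          exact hne ((hc0 e).1 h)
        rw [h1 _ _ h3]
        exact hp e he
  obtain ⟨p, hp⟩ := key Finset.univ
  exact ⟨p, fun e => hp e (Finset.mem_univ e)⟩

theorem forestCard : ForestCardStatement := by
  intro V E _ _ _ _ s t hc
  have hsurj : Function.Surjective
      (fun (p : V → Multiplicative (ZMod 2)) (e : E) => (p (s e))⁻¹ * p (t e)) := by
    intro μ
    obtain ⟨p, hp⟩ := triv V E s t hc (Multiplicative (ZMod 2)) μ
    exact ⟨p, funext fun e => (hp e).symm⟩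
  have h1 := Fintype.card_le_of_surjective _ hsurj
  have h2 : Fintype.card (Multiplicative (ZMod 2)) = 2 := by
    rw [Fintype.card_multiplicative, ZMod.card]
  rw [Fintype.card_fun, Fintype.card_fun, h2] at h1
  exact (Nat.pow_le_pow_iff_right (by norm_num)).1 h1

theorem potExists : PotExistsStatement := by
  intro Q hF M _ vV vH hR
  have key : ∀ F : Finset Q.K, ∃ p : Q.K → M, (∀ κ, p (Q.nu κ) = p κ) ∧ (∀ κ, p (Q.eta κ) = p κ) ∧
      ∀ κ ∈ F, vV κ = (p κ)⁻¹ * p (Q.fc κ) := by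
    intro F
    induction F using Finset.induction_on with
    | empty => exact ⟨fun _ => 1, by simp, by simp, by simp⟩
    | insert κ₀ F hκ₀ ih =>
      obtain ⟨p, hp1, hp2, hp3⟩ := ih
      obtain ⟨c, hc1, hc2, hc3⟩ := hF κ₀
      have hne : c κ₀ ≠ c (Q.fc κ₀) := ((hc3 κ₀).2 (Or.inl rfl)).symm
      obtain ⟨p', h1, h2, h3⟩ := pot_fix p c κ₀ (Q.fc κ₀) hne (vV κ₀)
      have hnu : ∀ κ, p' (Q.nu κ) = p' κ := fun κ => h3 _ _ (hc1 κ) (hp1 κ)
      have heta : ∀ κ, p' (Q.eta κ) = p' κ := fun κ => h3 _ _ (hc2 κ) (hp2 κ)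
      have hfc : vV (Q.fc κ₀) = (p' (Q.fc κ₀))⁻¹ * p' (Q.fc (Q.fc κ₀)) := by
        rw [Q.fcfc, hR.fcV, ← h2]
        group
      have hall : ∀ κ, (κ = κ₀ ∨ κ = Q.fc κ₀ ∨ κ = Q.eta κ₀ ∨ κ = Q.fc (Q.eta κ₀)) →
          vV κ = (p' κ)⁻¹ * p' (Q.fc κ) := by
        rintro κ (rfl | rfl | rfl | rfl)
        · exact h2.symm
        · exact hfc
        · rw [hR.etaV, heta, ← Q.etafc, heta]
          exact h2.symm
        · rw [← Q.etafc, hR.etaV, heta, ← Q.etafc, heta]
          exact hfc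
      refine ⟨p', hnu, heta, fun κ hκ => ?_⟩
      by_cases h4 : κ = κ₀ ∨ κ = Q.fc κ₀ ∨ κ = Q.eta κ₀ ∨ κ = Q.fc (Q.eta κ₀)
      · exact hall κ h4
      · rw [Finset.mem_insert] at hκ
        rcases hκ with rfl | hκ
        · exact absurd (Or.inl rfl) h4
        · have h5 : c κ = c (Q.fc κ) := by
            by_contra h
            exact h4 ((hc3 κ).1 (Ne.symm h))
          rw [h1 _ _ h5]
          exact hp3 κ hκ
  obtain ⟨p, h1, h2, h3⟩ := key Finset.univ
  exact ⟨p, h1, h2, fun κ => h3 κ (Finset.mem_univ κ)⟩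

end Pool.Agent.Helper35_WH
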